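import Pool.Agent.Lib.HopfSix.Max
open Equiv Finset Matrix

namespace HopfSix

lemma continuous_entry (i j : Fin 6) :
    Continuous fun v : Matrix (Fin 6) (Fin 6) ℝ => v i j :=
  (continuous_apply j).comp (continuous_apply i)

lemma continuous_curvOp (R : Fin 6 → Fin 6 → Fin 6 → Fin 6 → ℝ) : Continuous (curvOp R) := by
  unfold curvOp
  refine continuous_finsetSum _ fun i _ => continuous_finsetSum _ fun j _ =>
    continuous_finsetSum _ fun k _ => continuous_finsetSum _ fun l _ => ?_
  exact (continuous_const.mul (continuous_entry i j)).mul (continuous_entry k l)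

lemma continuous_Wvvv : Continuous fun v : Matrix (Fin 6) (Fin 6) ℝ => W v v v := by
  unfold W
  refine continuous_finsetSum _ fun σ _ => ?_
  exact continuous_const.mul (((continuous_entry _ _).mul (continuous_entry _ _)).mul
    (continuous_entry _ _))

lemma continuous_ip_self : Continuous fun v : Matrix (Fin 6) (Fin 6) ℝ => ip v v := by
  unfold ip
  refine continuous_finsetSum _ fun i _ => continuous_finsetSum _ fun j _ => ?_
  exact (continuous_entry i j).mul (continuous_entry i j)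

lemma ip_self_nonneg (v : Matrix (Fin 6) (Fin 6) ℝ) : 0 ≤ ip v v :=
  Finset.sum_nonneg fun _ _ => Finset.sum_nonneg fun _ _ => mul_self_nonneg _

lemma entry_sq_le (v : Matrix (Fin 6) (Fin 6) ℝ) (i j : Fin 6) : v i j ^ 2 ≤ ip v v := by
  rw [sq]
  unfold ip
  have h1 : v i j * v i j ≤ ∑ j', v i j' * v i j' :=
    Finset.single_le_sum (f := fun j' => v i j' * v i j') (fun _ _ => mul_self_nonneg _)
      (Finset.mem_univ j)
  have h2 : ∑ j', v i j' * v i j' ≤ ∑ i', ∑ j', v i' j' * v i' j' :=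
    Finset.single_le_sum (f := fun i' => ∑ j', v i' j' * v i' j')
      (fun _ _ => Finset.sum_nonneg fun _ _ => mul_self_nonneg _) (Finset.mem_univ i)
  exact h1.trans h2

lemma eq_zero_of_ip (v : Matrix (Fin 6) (Fin 6) ℝ) (h : ip v v = 0) : v = 0 := by
  funext i j
  have := entry_sq_le v i j
  rw [h] at this
  have h2 : v i j ^ 2 = 0 := le_antisymm this (sq_nonneg _)
  simpa using h2

lemma curvOp_smul (R : Fin 6 → Fin 6 → Fin 6 → Fin 6 → ℝ) (t : ℝ)
    (x : Matrix (Fin 6) (Fin 6) ℝ) : curvOp R (t • x) = t ^ 2 * curvOp R x := by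
  unfold curvOp
  simp only [Finset.mul_sum]
  refine Finset.sum_congr rfl fun i _ => Finset.sum_congr rfl fun j _ =>
    Finset.sum_congr rfl fun k _ => Finset.sum_congr rfl fun l _ => ?_
  simp only [Matrix.smul_apply, smul_eq_mul]
  ring

lemma ip_smul_self (t : ℝ) (x : Matrix (Fin 6) (Fin 6) ℝ) :
    ip (t • x) (t • x) = t ^ 2 * ip x x := by
  rw [ip_smul, ip_comm, ip_smul]
  ring

/-- the strict case -/
lemma nonneg_of_strict (R : Fin 6 → Fin 6 → Fin 6 → Fin 6 → ℝ) (hA : IsAlgCurv R)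
    (hdeg : ∀ v : Matrix (Fin 6) (Fin 6) ℝ, (∀ i j, v i j = - v j i) → v ≠ 0 → W v v v = 0 →
      0 < curvOp R v) : 0 ≤ gaussBonnet R := by
  by_cases hall : ∀ v : Matrix (Fin 6) (Fin 6) ℝ, (∀ i j, v i j = - v j i) → 0 ≤ curvOp R v
  · obtain ⟨f, -, hf⟩ := psd_decomp R hA.skew hA.pair hall
    rw [gb_decomp (fun _ => 1) f R (fun i j k l => by simpa using hf i j k l)]
    refine Finset.sum_nonneg fun x _ => Finset.sum_nonneg fun y _ => Finset.sum_nonneg fun z _ => ?_
    positivity
  push Not at hall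
  obtain ⟨v0, hv0, hv0'⟩ := hall
  have hcurv0 : curvOp R 0 = 0 := by
    have := curvOp_smul R 0 0
    simpa using this
  have hv0ne : v0 ≠ 0 := by
    rintro rfl
    rw [hcurv0] at hv0'
    exact lt_irrefl _ hv0'
  set K : Set (Matrix (Fin 6) (Fin 6) ℝ) :=
    {v | (∀ i j, v i j = - v j i) ∧ ip v v = 1 ∧ curvOp R v ≤ 0} with hK
  have hKclosed : IsClosed K := by
    have h1 : IsClosed {v : Matrix (Fin 6) (Fin 6) ℝ | ∀ i j, v i j = - v j i} := by
      simp only [Set.ofPred_forall]
      exact isClosed_iInter fun i => isClosed_iInter fun j =>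
        isClosed_eq (continuous_entry i j) (continuous_entry j i).neg
    have h2 : IsClosed {v : Matrix (Fin 6) (Fin 6) ℝ | ip v v = 1} :=
      isClosed_eq continuous_ip_self continuous_const
    have h3 : IsClosed {v : Matrix (Fin 6) (Fin 6) ℝ | curvOp R v ≤ 0} :=
      isClosed_le (continuous_curvOp R) continuous_const
    exact h1.inter (h2.inter h3)
  have hKcompact : IsCompact K := by
    have hbox : IsCompact (Set.pi Set.univ fun _ : Fin 6 =>
        Set.pi Set.univ fun _ : Fin 6 => Set.Icc (-1 : ℝ) 1) :=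
      isCompact_univ_pi fun _ => isCompact_univ_pi fun _ => isCompact_Icc
    refine IsCompact.of_isClosed_subset hbox hKclosed ?_
    rintro v ⟨-, hv, -⟩
    intro i _ j _
    have := entry_sq_le v i j
    rw [hv] at this
    exact abs_le.mp (abs_le_one_iff_mul_self_le_one.mpr (by nlinarith))
  have hnorm : ∀ v : Matrix (Fin 6) (Fin 6) ℝ, (∀ i j, v i j = - v j i) → v ≠ 0 →
      curvOp R v ≤ 0 → (Real.sqrt (ip v v))⁻¹ • v ∈ K := by
    intro v hv hne hc
    have hpos : 0 < ip v v := lt_of_le_of_ne (ip_self_nonneg v)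
      (fun h => hne (eq_zero_of_ip v h.symm))
    refine ⟨fun i j => ?_, ?_, ?_⟩
    · simp only [Matrix.smul_apply, smul_eq_mul]
      rw [hv i j]
      ring
    · rw [ip_smul_self, inv_pow, Real.sq_sqrt hpos.le]
      field_simp
    · rw [curvOp_smul]
      exact mul_nonpos_of_nonneg_of_nonpos (sq_nonneg _) hc
  have hKne : K.Nonempty := ⟨_, hnorm v0 hv0 hv0ne hv0'.le⟩
  have hWne : ∀ v ∈ K, W v v v ≠ 0 := by
    rintro v ⟨hv1, hv2, hv3⟩ hW
    have hne : v ≠ 0 := by
      rintro rfl
      simp [ip] at hv2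
    have := hdeg v hv1 hne hW
    linarith
  have hcont : ContinuousOn (fun v => (- curvOp R v) ^ 3 / W v v v ^ 2) K := by
    refine ContinuousOn.div ?_ ?_ ?_
    · exact ((continuous_curvOp R).neg.pow 3).continuousOn
    · exact (continuous_Wvvv.pow 2).continuousOn
    · intro v hv
      exact pow_ne_zero 2 (hWne v hv)
  obtain ⟨e, heK, hemax⟩ := hKcompact.exists_isMaxOn hKne hcont
  have hα := hWne e heK
  have hα2 : 0 < W e e e ^ 2 := by positivity
  have hmaxK : ∀ v : Matrix (Fin 6) (Fin 6) ℝ, (∀ i j, v i j = - v j i) → v ≠ 0 →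
      curvOp R v ≤ 0 → (- curvOp R v) ^ 3 * W e e e ^ 2 ≤ (- curvOp R e) ^ 3 * W v v v ^ 2 := by
    intro v hv hne hc
    have hpos : 0 < ip v v := lt_of_le_of_ne (ip_self_nonneg v)
      (fun h => hne (eq_zero_of_ip v h.symm))
    set n := (Real.sqrt (ip v v))⁻¹ with hn
    have hn0 : 0 < n := inv_pos.mpr (Real.sqrt_pos.mpr hpos)
    have hmem := hnorm v hv hne hc
    have h1 := hemax hmem
    simp only [Set.mem_ofPred_eq] at h1
    have hW := hWne _ hmem
    have hW2 : 0 < W (n • v) (n • v) (n • v) ^ 2 := by positivity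
    rw [← hn] at h1
    rw [div_le_div_iff₀ hW2 hα2] at h1
    have e1 : W (n • v) (n • v) (n • v) = n ^ 3 * W v v v := by
      rw [W_smul1, W_smul2, W_smul3]
      ring
    rw [e1, curvOp_smul] at h1
    have hn6 : 0 < n ^ 6 := by positivity
    have h2 : n ^ 6 * ((- curvOp R v) ^ 3 * W e e e ^ 2) ≤
        n ^ 6 * ((- curvOp R e) ^ 3 * W v v v ^ 2) := by
      calc n ^ 6 * ((- curvOp R v) ^ 3 * W e e e ^ 2) =
          (-(n ^ 2 * curvOp R v)) ^ 3 * W e e e ^ 2 := by ring
        _ ≤ (- curvOp R e) ^ 3 * (n ^ 3 * W v v v) ^ 2 := h1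
        _ = n ^ 6 * ((- curvOp R e) ^ 3 * W v v v ^ 2) := by ring
    exact le_of_mul_le_mul_left h2 hn6
  -- the maximal value is positive
  have hq : curvOp R e < 0 := by
    have h1 := hmaxK v0 hv0 hv0ne hv0'.le
    have h2 : 0 < (- curvOp R v0) ^ 3 * W e e e ^ 2 := by
      have : 0 < - curvOp R v0 := by linarith
      positivity
    by_contra hcon
    have h3 : - curvOp R e ≤ 0 := by linarith
    have h4 : (- curvOp R e) ^ 3 ≤ 0 := by
      have : (- curvOp R e) ^ 3 = (- curvOp R e) ^ 2 * (- curvOp R e) := by ring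
      rw [this]
      exact mul_nonpos_of_nonneg_of_nonpos (sq_nonneg _) h3
    have h5 : (- curvOp R e) ^ 3 * W v0 v0 v0 ^ 2 ≤ 0 :=
      mul_nonpos_of_nonpos_of_nonneg h4 (sq_nonneg _)
    linarith
  refine from_max R hA e heK.1 hq hα ?_ ?_
  · intro v hv
    rcases le_or_gt (curvOp R v) 0 with hc | hc
    · by_cases hne : v = 0
      · subst hne
        rw [hcurv0]
        have h1 : 0 ≤ (- curvOp R e) ^ 3 := by
          have : 0 ≤ - curvOp R e := by linarith
          positivity
        have h2 : 0 ≤ (- curvOp R e) ^ 3 * W (0 : Matrix (Fin 6) (Fin 6) ℝ) 0 0 ^ 2 :=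
          mul_nonneg h1 (sq_nonneg _)
        simpa using h2
      · exact hmaxK v hv hne hc
    · have h1 : (- curvOp R v) ^ 3 ≤ 0 := by
        have : (- curvOp R v) ^ 3 = - (curvOp R v) ^ 3 := by ring
        rw [this]
        have : 0 < curvOp R v ^ 3 := by positivity
        linarith
      have h2 : (- curvOp R v) ^ 3 * W e e e ^ 2 ≤ 0 :=
        mul_nonpos_of_nonpos_of_nonneg h1 (sq_nonneg _)
      have h3 : 0 ≤ (- curvOp R e) ^ 3 * W v v v ^ 2 := by
        have : 0 ≤ - curvOp R e := by linarith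
        positivity
      linarith
  · intro v hv hW
    by_cases hne : v = 0
    · subst hne
      rw [hcurv0]
    · exact (hdeg v hv hne hW).le

/-- the constant curvature tensor -/
def cc (i j k l : Fin 6) : ℝ :=
  (if i = k then 1 else 0) * (if j = l then 1 else 0) -
    (if i = l then 1 else 0) * (if j = k then 1 else 0)

lemma cc_isAlgCurv : IsAlgCurv cc := by
  refine ⟨?_, ?_, ?_⟩
  · intro i j k l
    unfold cc
    ring
  · intro i j k l
    unfold cc
    simp only [eq_comm (a := k) (b := i), eq_comm (a := l) (b := j), eq_comm (a := k) (b := j),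
      eq_comm (a := l) (b := i)]
    ring
  · intro i j k l
    unfold cc
    simp only [eq_comm (a := j) (b := i), eq_comm (a := k) (b := i), eq_comm (a := k) (b := j)]
    ring

lemma curvOp_cc (v : Matrix (Fin 6) (Fin 6) ℝ) (hv : ∀ i j, v i j = - v j i) :
    curvOp cc v = 2 * ip v v := by
  unfold curvOp cc ip
  rw [Finset.mul_sum]
  refine Finset.sum_congr rfl fun i _ => ?_
  rw [Finset.mul_sum]
  refine Finset.sum_congr rfl fun j _ => ?_
  have h1 : ∑ k, ∑ l, ((if i = k then (1 : ℝ) else 0) * (if j = l then 1 else 0) -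
      (if i = l then 1 else 0) * (if j = k then 1 else 0)) * v i j * v k l =
      v i j * v i j - v i j * v j i := by
    simp [sub_mul, Finset.sum_sub_distrib, ite_mul, mul_ite]
  rw [h1, hv j i]
  ring

lemma isAlgCurv_add_smul (R S : Fin 6 → Fin 6 → Fin 6 → Fin 6 → ℝ) (hR : IsAlgCurv R)
    (hS : IsAlgCurv S) (t : ℝ) : IsAlgCurv (fun i j k l => R i j k l + t * S i j k l) := by
  refine ⟨?_, ?_, ?_⟩
  · intro i j k l
    rw [hR.skew, hS.skew]
    ring
  · intro i j k l
    rw [hR.pair, hS.pair]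
  · intro i j k l
    linear_combination hR.bianchi i j k l + t * hS.bianchi i j k l

lemma curvOp_add_smul (R S : Fin 6 → Fin 6 → Fin 6 → Fin 6 → ℝ) (t : ℝ)
    (v : Matrix (Fin 6) (Fin 6) ℝ) :
    curvOp (fun i j k l => R i j k l + t * S i j k l) v = curvOp R v + t * curvOp S v := by
  unfold curvOp
  simp only [Finset.mul_sum, ← Finset.sum_add_distrib]
  refine Finset.sum_congr rfl fun i _ => Finset.sum_congr rfl fun j _ =>
    Finset.sum_congr rfl fun k _ => Finset.sum_congr rfl fun l _ => ?_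
  ring

/-- Nonnegativity on degenerate bivectors implies nonnegativity of the Gauss–Bonnet integrand. -/
theorem nonneg_of_degenerate (R : Fin 6 → Fin 6 → Fin 6 → Fin 6 → ℝ) (hA : IsAlgCurv R)
    (hdeg : ∀ v : Matrix (Fin 6) (Fin 6) ℝ, (∀ i j, v i j = - v j i) → W v v v = 0 →
      0 ≤ curvOp R v) : 0 ≤ gaussBonnet R := by
  have h := nonneg_of_pos (fun t => gaussBonnet (fun i j k l => R i j k l + t * cc i j k l)) (by
      unfold gaussBonnet
      refine continuous_finsetSum _ fun σ _ => continuous_finsetSum _ fun τ _ => ?_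
      fun_prop) (fun t ht => by
      refine nonneg_of_strict _ (isAlgCurv_add_smul R cc hA cc_isAlgCurv t) ?_
      intro v hv hne hW
      rw [curvOp_add_smul, curvOp_cc v hv]
      have h1 := hdeg v hv hW
      have hpos : 0 < ip v v := lt_of_le_of_ne (ip_self_nonneg v)
        (fun h => hne (eq_zero_of_ip v h.symm))
      positivity)
  simpa using h

/-- The curvature operator is nonnegative on degenerate bivectors. -/
theorem nonneg_of_det (R : Fin 6 → Fin 6 → Fin 6 → Fin 6 → ℝ) (hA : IsAlgCurv R)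
    (h : ∀ v : Matrix (Fin 6) (Fin 6) ℝ, vᵀ = - v → v.det = 0 → 0 ≤ curvOp R v) :
    0 ≤ gaussBonnet R := by
  refine nonneg_of_degenerate R hA fun v hv hW => ?_
  rw [W_self v hv] at hW
  obtain ⟨ν, hν, hvν⟩ := exists_ker v hv (by linarith)
  refine h v ?_ (Matrix.exists_mulVec_eq_zero_iff.mp ⟨ν, hν, hvν⟩)
  ext i j
  rw [Matrix.transpose_apply, Matrix.neg_apply]
  exact hv j i

lemma gaussBonnet_neg (R : Fin 6 → Fin 6 → Fin 6 → Fin 6 → ℝ) :
    gaussBonnet (fun i j k l => - R i j k l) = - gaussBonnet R := by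
  unfold gaussBonnet
  simp only [← Finset.sum_neg_distrib]
  refine Finset.sum_congr rfl fun σ _ => Finset.sum_congr rfl fun τ _ => ?_
  ring

lemma isAlgCurv_neg (R : Fin 6 → Fin 6 → Fin 6 → Fin 6 → ℝ) (hA : IsAlgCurv R) :
    IsAlgCurv (fun i j k l => - R i j k l) := by
  refine ⟨fun i j k l => ?_, fun i j k l => ?_, fun i j k l => ?_⟩
  · rw [hA.skew]
  · rw [hA.pair]
  · linear_combination (-1 : ℝ) * hA.bianchi i j k l

lemma curvOp_neg (R : Fin 6 → Fin 6 → Fin 6 → Fin 6 → ℝ) (v : Matrix (Fin 6) (Fin 6) ℝ) :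
    curvOp (fun i j k l => - R i j k l) v = - curvOp R v := by
  unfold curvOp
  simp only [← Finset.sum_neg_distrib]
  refine Finset.sum_congr rfl fun i _ => Finset.sum_congr rfl fun j _ =>
    Finset.sum_congr rfl fun k _ => Finset.sum_congr rfl fun l _ => ?_
  ring

/-- The curvature operator is nonpositive on degenerate bivectors. -/
theorem nonpos_of_det (R : Fin 6 → Fin 6 → Fin 6 → Fin 6 → ℝ) (hA : IsAlgCurv R)
    (h : ∀ v : Matrix (Fin 6) (Fin 6) ℝ, vᵀ = - v → v.det = 0 → curvOp R v ≤ 0) :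
    gaussBonnet R ≤ 0 := by
  have h1 := nonneg_of_det _ (isAlgCurv_neg R hA) (fun v hv hd => by
    have := h v hv hd
    rw [curvOp_neg]
    linarith)
  rw [gaussBonnet_neg] at h1
  linarith

end HopfSix
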