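import Pool.Agent.Lib.HopfSix.Pfaff
open Equiv Finset Matrix

namespace HopfSix

lemma W_comm12 (f g h : Matrix (Fin 6) (Fin 6) ℝ) : W f g h = W g f h := by
  unfold W
  refine Fintype.sum_equiv (Equiv.mulRight (swap (0 : Fin 6) 2 * swap 1 3)) _ _ fun σ => ?_
  have hs : Perm.sign (swap (0 : Fin 6) 2 * swap 1 3) = 1 := by decide
  have h0 : (swap (0 : Fin 6) 2 * swap 1 3 : Perm (Fin 6)) 0 = 2 := by decide
  have h1 : (swap (0 : Fin 6) 2 * swap 1 3 : Perm (Fin 6)) 1 = 3 := by decide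
  have h2 : (swap (0 : Fin 6) 2 * swap 1 3 : Perm (Fin 6)) 2 = 0 := by decide
  have h3 : (swap (0 : Fin 6) 2 * swap 1 3 : Perm (Fin 6)) 3 = 1 := by decide
  have h4 : (swap (0 : Fin 6) 2 * swap 1 3 : Perm (Fin 6)) 4 = 4 := by decide
  have h5 : (swap (0 : Fin 6) 2 * swap 1 3 : Perm (Fin 6)) 5 = 5 := by decide
  rw [Equiv.coe_mulRight]
  simp only [Perm.mul_apply σ, h0, h1, h2, h3, h4, h5]
  rw [Perm.sign_mul, hs, mul_one]
  ring

lemma W_comm23 (f g h : Matrix (Fin 6) (Fin 6) ℝ) : W f g h = W f h g := by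
  unfold W
  refine Fintype.sum_equiv (Equiv.mulRight (swap (2 : Fin 6) 4 * swap 3 5)) _ _ fun σ => ?_
  have hs : Perm.sign (swap (2 : Fin 6) 4 * swap 3 5) = 1 := by decide
  have h0 : (swap (2 : Fin 6) 4 * swap 3 5 : Perm (Fin 6)) 0 = 0 := by decide
  have h1 : (swap (2 : Fin 6) 4 * swap 3 5 : Perm (Fin 6)) 1 = 1 := by decide
  have h2 : (swap (2 : Fin 6) 4 * swap 3 5 : Perm (Fin 6)) 2 = 4 := by decide
  have h3 : (swap (2 : Fin 6) 4 * swap 3 5 : Perm (Fin 6)) 3 = 5 := by decide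
  have h4 : (swap (2 : Fin 6) 4 * swap 3 5 : Perm (Fin 6)) 4 = 2 := by decide
  have h5 : (swap (2 : Fin 6) 4 * swap 3 5 : Perm (Fin 6)) 5 = 3 := by decide
  rw [Equiv.coe_mulRight]
  simp only [Perm.mul_apply σ, h0, h1, h2, h3, h4, h5]
  rw [Perm.sign_mul, hs, mul_one]
  ring

lemma W_comm13 (f g h : Matrix (Fin 6) (Fin 6) ℝ) : W f g h = W h g f := by
  rw [W_comm12, W_comm23, W_comm12]

lemma W_add1 (f f' g h : Matrix (Fin 6) (Fin 6) ℝ) : W (f + f') g h = W f g h + W f' g h := by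
  unfold W
  rw [← Finset.sum_add_distrib]
  refine Finset.sum_congr rfl fun σ _ => ?_
  rw [Matrix.add_apply]
  ring

lemma W_smul1 (c : ℝ) (f g h : Matrix (Fin 6) (Fin 6) ℝ) : W (c • f) g h = c * W f g h := by
  unfold W
  rw [Finset.mul_sum]
  refine Finset.sum_congr rfl fun σ _ => ?_
  rw [Matrix.smul_apply, smul_eq_mul]
  ring

lemma W_add2 (f g g' h : Matrix (Fin 6) (Fin 6) ℝ) : W f (g + g') h = W f g h + W f g' h := by
  rw [W_comm12, W_add1, W_comm12 g, W_comm12 g']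

lemma W_smul2 (c : ℝ) (f g h : Matrix (Fin 6) (Fin 6) ℝ) : W f (c • g) h = c * W f g h := by
  rw [W_comm12, W_smul1, W_comm12]

lemma W_add3 (f g h h' : Matrix (Fin 6) (Fin 6) ℝ) : W f g (h + h') = W f g h + W f g h' := by
  rw [W_comm23, W_add2, W_comm23 f h, W_comm23 f h']

lemma W_smul3 (c : ℝ) (f g h : Matrix (Fin 6) (Fin 6) ℝ) : W f g (c • h) = c * W f g h := by
  rw [W_comm23, W_smul2, W_comm23]

lemma W_sum1 {ι : Type*} (s : Finset ι) (F : ι → Matrix (Fin 6) (Fin 6) ℝ)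
    (g h : Matrix (Fin 6) (Fin 6) ℝ) : W (∑ x ∈ s, F x) g h = ∑ x ∈ s, W (F x) g h := by
  classical
  induction s using Finset.induction_on with
  | empty =>
    have := W_smul1 0 0 g h
    simpa using this
  | insert a s ha ih => rw [Finset.sum_insert ha, Finset.sum_insert ha, W_add1, ih]

lemma W_sum2 {ι : Type*} (s : Finset ι) (F : ι → Matrix (Fin 6) (Fin 6) ℝ)
    (g h : Matrix (Fin 6) (Fin 6) ℝ) : W g (∑ x ∈ s, F x) h = ∑ x ∈ s, W g (F x) h := by
  rw [W_comm12, W_sum1]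
  exact Finset.sum_congr rfl fun x _ => W_comm12 _ _ _

lemma W_sum3 {ι : Type*} (s : Finset ι) (F : ι → Matrix (Fin 6) (Fin 6) ℝ)
    (g h : Matrix (Fin 6) (Fin 6) ℝ) : W g h (∑ x ∈ s, F x) = ∑ x ∈ s, W g h (F x) := by
  rw [W_comm23, W_sum2]
  exact Finset.sum_congr rfl fun x _ => W_comm23 _ _ _

lemma W_transpose3 (f g h : Matrix (Fin 6) (Fin 6) ℝ) : W f g hᵀ = - W f g h := by
  unfold W
  rw [← Finset.sum_neg_distrib]
  refine Fintype.sum_equiv (Equiv.mulRight (swap (4 : Fin 6) 5)) _ _ fun σ => ?_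
  have hs : Perm.sign (swap (4 : Fin 6) 5) = -1 := by decide
  have h0 : (swap (4 : Fin 6) 5 : Perm (Fin 6)) 0 = 0 := by decide
  have h1 : (swap (4 : Fin 6) 5 : Perm (Fin 6)) 1 = 1 := by decide
  have h2 : (swap (4 : Fin 6) 5 : Perm (Fin 6)) 2 = 2 := by decide
  have h3 : (swap (4 : Fin 6) 5 : Perm (Fin 6)) 3 = 3 := by decide
  have h4 : (swap (4 : Fin 6) 5 : Perm (Fin 6)) 4 = 5 := by decide
  have h5 : (swap (4 : Fin 6) 5 : Perm (Fin 6)) 5 = 4 := by decide
  rw [Equiv.coe_mulRight]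
  simp only [Perm.mul_apply σ, h0, h1, h2, h3, h4, h5]
  rw [Perm.sign_mul, hs]
  push_cast
  rw [Matrix.transpose_apply]
  ring

/-- inner product of matrices -/
def ip (f g : Matrix (Fin 6) (Fin 6) ℝ) : ℝ := ∑ i, ∑ j, f i j * g i j

/-- the cross product dual to `W` -/
noncomputable def cr (f g : Matrix (Fin 6) (Fin 6) ℝ) : Matrix (Fin 6) (Fin 6) ℝ :=
  fun k l => W f g (Matrix.single k l 1)

lemma W_eq_ip (f g h : Matrix (Fin 6) (Fin 6) ℝ) : W f g h = ip h (cr f g) := by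
  unfold ip cr
  have h1 : h = ∑ i, ∑ j, h i j • Matrix.single i j (1 : ℝ) := by
    conv_lhs => rw [Matrix.matrix_eq_sum_single h]
    simp [Matrix.smul_single]
  conv_lhs => rw [h1]
  rw [W_sum3]
  refine Finset.sum_congr rfl fun i _ => ?_
  rw [W_sum3]
  exact Finset.sum_congr rfl fun j _ => W_smul3 _ _ _ _

lemma cr_skew (f g : Matrix (Fin 6) (Fin 6) ℝ) (i j : Fin 6) : cr f g i j = - cr f g j i := by
  unfold cr
  rw [← W_transpose3, Matrix.transpose_single]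

lemma cr_add_left (f f' g : Matrix (Fin 6) (Fin 6) ℝ) : cr (f + f') g = cr f g + cr f' g := by
  funext i j; simp only [cr, Matrix.add_apply, W_add1]

lemma cr_smul_left (c : ℝ) (f g : Matrix (Fin 6) (Fin 6) ℝ) : cr (c • f) g = c • cr f g := by
  funext i j; simp only [cr, Matrix.smul_apply, W_smul1, smul_eq_mul]

lemma cr_comm (f g : Matrix (Fin 6) (Fin 6) ℝ) : cr f g = cr g f := by
  funext i j; simp only [cr]; rw [W_comm12]

lemma cr_self (f : Matrix (Fin 6) (Fin 6) ℝ) (hf : ∀ i j, f i j = - f j i) :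
    cr f f = (8 : ℝ) • shp f := by
  funext k l
  simp only [cr, Matrix.smul_apply, smul_eq_mul]
  rw [W_comm13, W_eq_shp _ f hf]
  congr 1
  rw [Finset.sum_eq_single k, Finset.sum_eq_single l]
  · simp
  · intro j _ hj
    rw [Matrix.single_apply_of_col_ne]
    · simp
    · exact hj.symm
  · simp
  · intro i _ hi
    refine Finset.sum_eq_zero fun j _ => ?_
    rw [Matrix.single_apply_of_row_ne]
    · simp
    · exact hi.symm
  · simp

lemma shp_smul (c : ℝ) (f : Matrix (Fin 6) (Fin 6) ℝ) : shp (c • f) = c ^ 2 • shp f := by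
  funext i j
  fin_cases i <;> fin_cases j <;> simp [shp, pf4] <;> ring

/-- the adjoint identity -/
lemma cr_cr (f : Matrix (Fin 6) (Fin 6) ℝ) (hf : ∀ i j, f i j = - f j i) :
    cr (cr f f) (cr f f) = ((32 / 3) * W f f f) • f := by
  rw [cr_self _ (cr_skew f f), cr_self f hf, shp_smul, W_self f hf]
  funext i j
  simp only [Matrix.smul_apply, smul_eq_mul]
  rw [shp_shp f hf]
  ring

end HopfSix
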