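import Pool.Agent.Lib.HopfSix.Defs
import Pool.Agent.Lib.HopfSix.Cross
open Equiv Finset Matrix

namespace HopfSix

lemma sum_comm3 {A B C : Type*} [Fintype A] [Fintype B] [Fintype C] (G : A → B → C → ℝ) :
    ∑ a, ∑ b, ∑ x, G a b x = ∑ x, ∑ a, ∑ b, G a b x := by
  calc ∑ a, ∑ b, ∑ x, G a b x = ∑ a, ∑ x, ∑ b, G a b x :=
        Finset.sum_congr rfl fun a _ => Finset.sum_comm
    _ = ∑ x, ∑ a, ∑ b, G a b x := Finset.sum_comm

lemma gb_decomp {ι : Type*} [Fintype ι] (s : ι → ℝ) (f : ι → Matrix (Fin 6) (Fin 6) ℝ)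
    (R : Fin 6 → Fin 6 → Fin 6 → Fin 6 → ℝ)
    (hR : ∀ i j k l, R i j k l = ∑ x, s x * f x i j * f x k l) :
    gaussBonnet R = ∑ x, ∑ y, ∑ z, s x * s y * s z * W (f x) (f y) (f z) ^ 2 := by
  have h1 : ∀ x y z, s x * s y * s z * W (f x) (f y) (f z) ^ 2 =
      ∑ σ : Perm (Fin 6), ∑ τ : Perm (Fin 6), s x * s y * s z *
        (((Perm.sign σ : ℤ) : ℝ) * (f x (σ 0) (σ 1) * f y (σ 2) (σ 3) * f z (σ 4) (σ 5)) *
        (((Perm.sign τ : ℤ) : ℝ) * (f x (τ 0) (τ 1) * f y (τ 2) (τ 3) * f z (τ 4) (τ 5)))) := by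
    intro x y z
    rw [sq]
    unfold W
    rw [Finset.sum_mul_sum, Finset.mul_sum]
    refine Finset.sum_congr rfl fun σ _ => ?_
    rw [Finset.mul_sum]
  have h2 : ∀ σ τ : Perm (Fin 6), ((Perm.sign σ : ℤ) : ℝ) * ((Perm.sign τ : ℤ) : ℝ) *
      (R (σ 0) (σ 1) (τ 0) (τ 1) * R (σ 2) (σ 3) (τ 2) (τ 3) * R (σ 4) (σ 5) (τ 4) (τ 5)) =
      ∑ x, ∑ y, ∑ z, s x * s y * s z *
        (((Perm.sign σ : ℤ) : ℝ) * (f x (σ 0) (σ 1) * f y (σ 2) (σ 3) * f z (σ 4) (σ 5)) *
        (((Perm.sign τ : ℤ) : ℝ) * (f x (τ 0) (τ 1) * f y (τ 2) (τ 3) * f z (τ 4) (τ 5)))) := by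
    intro σ τ
    rw [hR, hR, hR, Finset.sum_mul_sum, Finset.sum_mul, Finset.mul_sum]
    refine Finset.sum_congr rfl fun x _ => ?_
    rw [Finset.sum_mul_sum, Finset.mul_sum]
    refine Finset.sum_congr rfl fun y _ => ?_
    rw [Finset.mul_sum]
    refine Finset.sum_congr rfl fun z _ => ?_
    ring
  unfold gaussBonnet
  simp only [h1, h2]
  rw [sum_comm3]
  refine Finset.sum_congr rfl fun x _ => ?_
  rw [sum_comm3]
  refine Finset.sum_congr rfl fun y _ => ?_
  rw [sum_comm3]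

/-- the first Bianchi identity in terms of a decomposition -/
lemma bianchi_sum {ι : Type*} [Fintype ι] (s : ι → ℝ) (f : ι → Matrix (Fin 6) (Fin 6) ℝ)
    (R : Fin 6 → Fin 6 → Fin 6 → Fin 6 → ℝ) (hA : IsAlgCurv R)
    (hR : ∀ i j k l, R i j k l = ∑ x, s x * f x i j * f x k l) (h : Matrix (Fin 6) (Fin 6) ℝ) :
    ∑ x, s x * W (f x) (f x) h = 0 := by
  have h0 : ∀ π : Perm (Fin 6), Perm.sign π = 1 → ∑ x, s x * W (f x) (f x) h =
      ∑ σ : Perm (Fin 6), ((Perm.sign σ : ℤ) : ℝ) *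
        (R (σ (π 0)) (σ (π 1)) (σ (π 2)) (σ (π 3)) * h (σ (π 4)) (σ (π 5))) := by
    intro π hπ
    have h1 : ∑ x, s x * W (f x) (f x) h = ∑ σ : Perm (Fin 6), ((Perm.sign σ : ℤ) : ℝ) *
        (R (σ 0) (σ 1) (σ 2) (σ 3) * h (σ 4) (σ 5)) := by
      unfold W
      simp only [Finset.mul_sum]
      rw [Finset.sum_comm]
      refine Finset.sum_congr rfl fun σ _ => ?_
      rw [hR, Finset.sum_mul, Finset.mul_sum]
      refine Finset.sum_congr rfl fun x _ => ?_
      ring
    rw [h1]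
    symm
    refine Fintype.sum_equiv (Equiv.mulRight π) _ _ fun σ => ?_
    rw [Equiv.coe_mulRight]
    simp only [Perm.mul_apply σ]
    rw [Perm.sign_mul, hπ, mul_one]
  have a1 := h0 1 (by simp)
  have a2 := h0 (swap 0 1 * swap 1 2) (by decide)
  have a3 := h0 (swap 1 2 * swap 0 1) (by decide)
  have e0 : (swap (0 : Fin 6) 1 * swap 1 2 : Perm (Fin 6)) 0 = 1 := by decide
  have e1 : (swap (0 : Fin 6) 1 * swap 1 2 : Perm (Fin 6)) 1 = 2 := by decide
  have e2 : (swap (0 : Fin 6) 1 * swap 1 2 : Perm (Fin 6)) 2 = 0 := by decide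
  have e3 : (swap (0 : Fin 6) 1 * swap 1 2 : Perm (Fin 6)) 3 = 3 := by decide
  have e4 : (swap (0 : Fin 6) 1 * swap 1 2 : Perm (Fin 6)) 4 = 4 := by decide
  have e5 : (swap (0 : Fin 6) 1 * swap 1 2 : Perm (Fin 6)) 5 = 5 := by decide
  have g0 : (swap (1 : Fin 6) 2 * swap 0 1 : Perm (Fin 6)) 0 = 2 := by decide
  have g1 : (swap (1 : Fin 6) 2 * swap 0 1 : Perm (Fin 6)) 1 = 0 := by decide
  have g2 : (swap (1 : Fin 6) 2 * swap 0 1 : Perm (Fin 6)) 2 = 1 := by decide
  have g3 : (swap (1 : Fin 6) 2 * swap 0 1 : Perm (Fin 6)) 3 = 3 := by decide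
  have g4 : (swap (1 : Fin 6) 2 * swap 0 1 : Perm (Fin 6)) 4 = 4 := by decide
  have g5 : (swap (1 : Fin 6) 2 * swap 0 1 : Perm (Fin 6)) 5 = 5 := by decide
  rw [e0, e1, e2, e3, e4, e5] at a2
  rw [g0, g1, g2, g3, g4, g5] at a3
  simp only [Perm.coe_one, id_eq] at a1
  have key : (∑ σ : Perm (Fin 6), ((Perm.sign σ : ℤ) : ℝ) *
        (R (σ 0) (σ 1) (σ 2) (σ 3) * h (σ 4) (σ 5))) +
      (∑ σ : Perm (Fin 6), ((Perm.sign σ : ℤ) : ℝ) *
        (R (σ 1) (σ 2) (σ 0) (σ 3) * h (σ 4) (σ 5))) +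
      (∑ σ : Perm (Fin 6), ((Perm.sign σ : ℤ) : ℝ) *
        (R (σ 2) (σ 0) (σ 1) (σ 3) * h (σ 4) (σ 5))) = 0 := by
    rw [← Finset.sum_add_distrib, ← Finset.sum_add_distrib]
    refine Finset.sum_eq_zero fun σ _ => ?_
    have := hA.bianchi (σ 0) (σ 1) (σ 2) (σ 3)
    linear_combination ((Perm.sign σ : ℤ) : ℝ) * h (σ 4) (σ 5) * this
  linarith

open scoped MatrixOrder in
/-- a positive semidefinite curvature-like form is a sum of squares of skew matrices -/
lemma psd_decomp (S : Fin 6 → Fin 6 → Fin 6 → Fin 6 → ℝ)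
    (hskew : ∀ i j k l, S i j k l = - S j i k l) (hpair : ∀ i j k l, S i j k l = S k l i j)
    (hpos : ∀ v : Matrix (Fin 6) (Fin 6) ℝ, (∀ i j, v i j = - v j i) → 0 ≤ curvOp S v) :
    ∃ f : Fin 6 × Fin 6 → Matrix (Fin 6) (Fin 6) ℝ, (∀ x i j, f x i j = - f x j i) ∧
      ∀ i j k l, S i j k l = ∑ x, f x i j * f x k l := by
  have hskew' : ∀ i j k l, S i j k l = - S i j l k := by
    intro i j k l
    rw [hpair, hskew, hpair]
  let M : Matrix (Fin 6 × Fin 6) (Fin 6 × Fin 6) ℝ := fun a b => S a.1 a.2 b.1 b.2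
  have hM : M.PosSemidef := by
    refine Matrix.PosSemidef.of_dotProduct_mulVec_nonneg ?_ ?_
    · ext a b
      show star (M b a) = M a b
      exact hpair _ _ _ _
    · intro x
      have h1 := hpos (fun i j => x (i, j) - x (j, i)) (fun i j => by ring)
      have h2 : star x ⬝ᵥ M *ᵥ x = ∑ i, ∑ j, ∑ k, ∑ l, S i j k l * x (i, j) * x (k, l) := by
        simp only [dotProduct, mulVec, Fintype.sum_prod_type, M, star_trivial, Pi.star_apply]
        refine Finset.sum_congr rfl fun i _ => Finset.sum_congr rfl fun j _ => ?_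
        rw [Finset.mul_sum]
        refine Finset.sum_congr rfl fun k _ => ?_
        rw [Finset.mul_sum]
        refine Finset.sum_congr rfl fun l _ => ?_
        ring
      have h3 : curvOp S (fun i j => x (i, j) - x (j, i)) =
          4 * ∑ i, ∑ j, ∑ k, ∑ l, S i j k l * x (i, j) * x (k, l) := by
        have e1 : ∑ i, ∑ j, ∑ k, ∑ l, S i j k l * x (j, i) * (x (k, l) - x (l, k)) =
            - ∑ i, ∑ j, ∑ k, ∑ l, S i j k l * x (i, j) * (x (k, l) - x (l, k)) := by
          rw [Finset.sum_comm]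
          simp only [← Finset.sum_neg_distrib]
          refine Finset.sum_congr rfl fun i _ => Finset.sum_congr rfl fun j _ =>
            Finset.sum_congr rfl fun k _ => Finset.sum_congr rfl fun l _ => ?_
          rw [hskew j i]
          ring
        have e2 : ∑ i, ∑ j, ∑ k, ∑ l, S i j k l * x (i, j) * x (l, k) =
            - ∑ i, ∑ j, ∑ k, ∑ l, S i j k l * x (i, j) * x (k, l) := by
          simp only [← Finset.sum_neg_distrib]
          refine Finset.sum_congr rfl fun i _ => Finset.sum_congr rfl fun j _ => ?_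
          rw [Finset.sum_comm]
          refine Finset.sum_congr rfl fun k _ => Finset.sum_congr rfl fun l _ => ?_
          rw [hskew' i j l k]
          ring
        have e3 : curvOp S (fun i j => x (i, j) - x (j, i)) =
            ∑ i, ∑ j, ∑ k, ∑ l, S i j k l * x (i, j) * (x (k, l) - x (l, k)) -
            ∑ i, ∑ j, ∑ k, ∑ l, S i j k l * x (j, i) * (x (k, l) - x (l, k)) := by
          unfold curvOp
          simp only [← Finset.sum_sub_distrib]
          refine Finset.sum_congr rfl fun i _ => Finset.sum_congr rfl fun j _ =>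
            Finset.sum_congr rfl fun k _ => Finset.sum_congr rfl fun l _ => ?_
          ring
        have e4 : ∑ i, ∑ j, ∑ k, ∑ l, S i j k l * x (i, j) * (x (k, l) - x (l, k)) =
            ∑ i, ∑ j, ∑ k, ∑ l, S i j k l * x (i, j) * x (k, l) -
            ∑ i, ∑ j, ∑ k, ∑ l, S i j k l * x (i, j) * x (l, k) := by
          simp only [← Finset.sum_sub_distrib]
          refine Finset.sum_congr rfl fun i _ => Finset.sum_congr rfl fun j _ =>
            Finset.sum_congr rfl fun k _ => Finset.sum_congr rfl fun l _ => ?_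
          ring
        rw [e3, e1, e4, e2]
        ring
      rw [h2]
      linarith
  obtain ⟨B, hB⟩ := CStarAlgebra.nonneg_iff_eq_star_mul_self.mp hM.nonneg
  have hB' : ∀ i j k l, S i j k l = ∑ x, B x (i, j) * B x (k, l) := by
    intro i j k l
    have := congrFun (congrFun hB (i, j)) (k, l)
    simp only [M, Matrix.mul_apply, Matrix.star_apply, star_trivial] at this
    exact this
  refine ⟨fun x i j => B x (i, j), fun x i j => ?_, hB'⟩
  have hz : ∑ x, (B x (i, j) + B x (j, i)) ^ 2 = 0 := by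
    have : ∑ x, (B x (i, j) + B x (j, i)) ^ 2 = S i j i j + S i j j i + S j i i j + S j i j i := by
      rw [hB' i j i j, hB' i j j i, hB' j i i j, hB' j i j i, ← Finset.sum_add_distrib,
        ← Finset.sum_add_distrib, ← Finset.sum_add_distrib]
      refine Finset.sum_congr rfl fun x _ => ?_
      ring
    rw [this, hskew j i i j, hskew j i j i]
    ring
  have := (Finset.sum_eq_zero_iff_of_nonneg (fun x _ => sq_nonneg _)).mp hz x (Finset.mem_univ _)
  have h' := pow_eq_zero_iff (two_ne_zero) |>.mp this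
  linarith

end HopfSix
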