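import Mathlib

/-!
# Algebraic curvature tensors in dimension six and the Gauss–Bonnet–Chern integrand

Sign convention: `R i j i j` is the sectional curvature of the plane spanned by the orthonormal
vectors `e i`, `e j`.
-/

open Equiv

namespace HopfSix

/-- An algebraic curvature tensor on `ℝ⁶`: skew in the first pair, symmetric under exchange of the
two pairs, and satisfying the first Bianchi identity. -/
structure IsAlgCurv (R : Fin 6 → Fin 6 → Fin 6 → Fin 6 → ℝ) : Prop where
  skew : ∀ i j k l, R i j k l = - R j i k l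
  pair : ∀ i j k l, R i j k l = R k l i j
  bianchi : ∀ i j k l, R i j k l + R j k i l + R k i j l = 0

/-- The curvature operator as a quadratic form on bivectors `v` (skew `6 × 6` matrices):
the sum of `R i j k l * v i j * v k l` over all indices. -/
def curvOp (R : Fin 6 → Fin 6 → Fin 6 → Fin 6 → ℝ) (v : Matrix (Fin 6) (Fin 6) ℝ) : ℝ :=
  ∑ i, ∑ j, ∑ k, ∑ l, R i j k l * v i j * v k l

/-- The Gauss–Bonnet–Chern integrand of a six-dimensional curvature tensor, up to the positive
universal factor `1 / (8π)³ / 3!`: the sum over all pairs of permutations `σ, τ` of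
`sign σ * sign τ * R (σ 0) (σ 1) (τ 0) (τ 1) * R (σ 2) (σ 3) (τ 2) (τ 3) * R (σ 4) (σ 5) (τ 4) (τ 5)`.
-/
noncomputable def gaussBonnet (R : Fin 6 → Fin 6 → Fin 6 → Fin 6 → ℝ) : ℝ :=
  ∑ σ : Perm (Fin 6), ∑ τ : Perm (Fin 6),
    ((Perm.sign σ : ℤ) : ℝ) * ((Perm.sign τ : ℤ) : ℝ) *
      (R (σ 0) (σ 1) (τ 0) (τ 1) * R (σ 2) (σ 3) (τ 2) (τ 3) * R (σ 4) (σ 5) (τ 4) (τ 5))

end HopfSix
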