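import Pool.Agent.Lib.HopfSix.Key
open Equiv Finset Matrix

namespace HopfSix

lemma nonneg_of_pos (k : ℝ → ℝ) (hk : Continuous k) (h : ∀ t > 0, 0 ≤ k t) : 0 ≤ k 0 := by
  have hcl : IsClosed {t : ℝ | 0 ≤ k t} := isClosed_le continuous_const hk
  have h1 : Set.Ioi (0 : ℝ) ⊆ {t : ℝ | 0 ≤ k t} := fun t ht => h t ht
  have h2 : closure (Set.Ioi (0 : ℝ)) ⊆ {t : ℝ | 0 ≤ k t} := hcl.closure_subset_iff.mpr h1
  rw [closure_Ioi] at h2
  exact h2 (Set.mem_Ici.mpr le_rfl)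

/-- a polynomial which is nonnegative and vanishes at `0` has vanishing linear term -/
lemma lin_zero (c1 : ℝ) (m : ℝ → ℝ) (hm : Continuous m) (h : ∀ t, 0 ≤ t * (c1 + t * m t)) :
    c1 = 0 := by
  have h1 : 0 ≤ c1 := by
    have := nonneg_of_pos (fun t => c1 + t * m t) (by fun_prop) (fun t ht => by
      have := h t
      exact nonneg_of_mul_nonneg_right this ht)
    simpa using this
  have h2 : 0 ≤ - c1 := by
    have := nonneg_of_pos (fun t => - (c1 + (-t) * m (-t))) (by fun_prop) (fun t ht => by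
      have := h (-t)
      have h' : 0 ≤ t * (- (c1 + (-t) * m (-t))) := by linarith
      exact nonneg_of_mul_nonneg_right h' ht)
    simpa using this
  linarith

lemma cubic_root_aux (b c m : ℝ) (hm : 0 ≤ m) (hmb : -3 * b ≤ m ^ 2)
    (hm3 : m * (m ^ 2 + 3 * b) = 0) (hc : c ≤ 0) :
    ∃ s : ℝ, s ^ 3 + 3 * b * s + c = 0 ∧ -3 * b ≤ s ^ 2 := by
  set M := m + 1 + |c| with hM
  have hcont : ContinuousOn (fun s : ℝ => s ^ 3 + 3 * b * s + c) (Set.Icc m M) := by fun_prop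
  have hmM : m ≤ M := by have := abs_nonneg c; linarith
  have h0 : m ^ 3 + 3 * b * m + c ≤ 0 := by nlinarith
  have h1 : 0 ≤ M ^ 3 + 3 * b * M + c := by
    have ha := abs_nonneg c
    have hc' : c = - |c| := by rw [abs_of_nonpos hc]; ring
    have h2 : (M - m) * (M + m) ≤ M ^ 2 + 3 * b := by nlinarith
    have h3 : (1 + |c|) * (1 + |c|) ≤ M ^ 2 + 3 * b := by
      refine le_trans ?_ h2
      have : M - m = 1 + |c| := by rw [hM]; ring
      rw [this]
      have : 1 + |c| ≤ M + m := by rw [hM]; linarith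
      exact mul_le_mul_of_nonneg_left this (by linarith)
    have h4 : 1 + |c| ≤ M := by rw [hM]; linarith
    have h5 : (1 + |c|) * ((1 + |c|) * (1 + |c|)) ≤ M * (M ^ 2 + 3 * b) :=
      mul_le_mul h4 h3 (by positivity) (by linarith)
    nlinarith [mul_nonneg ha ha, mul_nonneg ha (mul_nonneg ha ha)]
  obtain ⟨s, ⟨hs1, hs2⟩, hs3⟩ := intermediate_value_Icc hmM hcont ⟨h0, h1⟩
  refine ⟨s, hs3, le_trans hmb ?_⟩
  exact pow_le_pow_left₀ hm hs1 2

lemma cubic_root (b c : ℝ) : ∃ s : ℝ, s ^ 3 + 3 * b * s + c = 0 ∧ -3 * b ≤ s ^ 2 := by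
  obtain ⟨m, hm, hmb, hm3⟩ : ∃ m : ℝ, 0 ≤ m ∧ -3 * b ≤ m ^ 2 ∧ m * (m ^ 2 + 3 * b) = 0 := by
    by_cases hb : 0 ≤ b
    · exact ⟨0, le_rfl, by nlinarith, by ring⟩
    · refine ⟨Real.sqrt (-3 * b), Real.sqrt_nonneg _, ?_, ?_⟩
      · rw [Real.sq_sqrt (by linarith)]
      · rw [Real.sq_sqrt (by linarith)]
        ring
  rcases le_total c 0 with hc | hc
  · exact cubic_root_aux b c m hm hmb hm3 hc
  · obtain ⟨s, hs1, hs2⟩ := cubic_root_aux b (-c) m hm hmb hm3 (by linarith)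
    refine ⟨-s, ?_, ?_⟩
    · linear_combination (-1 : ℝ) * hs1
    · rw [neg_sq]; exact hs2

lemma curvBil_comm (R : Fin 6 → Fin 6 → Fin 6 → Fin 6 → ℝ)
    (hpair : ∀ i j k l, R i j k l = R k l i j) (e y : Matrix (Fin 6) (Fin 6) ℝ) :
    curvBil R e y = curvBil R y e := by
  unfold curvBil
  have h1 : ∑ i, ∑ j, ∑ k, ∑ l, R i j k l * e i j * y k l =
      ∑ k, ∑ l, ∑ i, ∑ j, R i j k l * e i j * y k l := by
    calc ∑ i, ∑ j, ∑ k, ∑ l, R i j k l * e i j * y k l
        = ∑ k, ∑ i, ∑ j, ∑ l, R i j k l * e i j * y k l := sum_comm3 _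
      _ = ∑ k, ∑ l, ∑ i, ∑ j, R i j k l * e i j * y k l :=
        Finset.sum_congr rfl fun k _ => sum_comm3 _
  rw [h1]
  refine Finset.sum_congr rfl fun i _ => Finset.sum_congr rfl fun j _ =>
    Finset.sum_congr rfl fun k _ => Finset.sum_congr rfl fun l _ => ?_
  rw [hpair k l i j]
  ring

lemma W_cube (e x : Matrix (Fin 6) (Fin 6) ℝ) (s t : ℝ) :
    W (s • e + t • x) (s • e + t • x) (s • e + t • x) =
      s ^ 3 * W e e e + 3 * s ^ 2 * t * W e e x + 3 * s * t ^ 2 * W e x x + t ^ 3 * W x x x := by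
  simp only [W_add1, W_add2, W_add3, W_smul1, W_smul2, W_smul3]
  rw [W_comm12 x e e, W_comm23 e x e, W_comm12 x e x, W_comm23 x x e, W_comm12 x e x]
  ring

lemma from_max (R : Fin 6 → Fin 6 → Fin 6 → Fin 6 → ℝ) (hA : IsAlgCurv R)
    (e : Matrix (Fin 6) (Fin 6) ℝ) (he : ∀ i j, e i j = - e j i) (hq : curvOp R e < 0)
    (hα : W e e e ≠ 0)
    (hmax : ∀ v : Matrix (Fin 6) (Fin 6) ℝ, (∀ i j, v i j = - v j i) →
      (- curvOp R v) ^ 3 * W e e e ^ 2 ≤ (- curvOp R e) ^ 3 * W v v v ^ 2)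
    (hdeg : ∀ v : Matrix (Fin 6) (Fin 6) ℝ, (∀ i j, v i j = - v j i) → W v v v = 0 →
      0 ≤ curvOp R v) :
    0 ≤ gaussBonnet R := by
  set α := W e e e with hαdef
  set q := curvOp R e with hqdef
  have hα2 : 0 < α ^ 2 := by positivity
  have hμ : 0 < -q / α ^ 2 := div_pos (by linarith) hα2
  have hskew : ∀ (x : Matrix (Fin 6) (Fin 6) ℝ) (s t : ℝ), (∀ i j, x i j = - x j i) →
      ∀ i j, (s • e + t • x) i j = - (s • e + t • x) j i := by
    intro x s t hx i j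
    simp only [Matrix.add_apply, Matrix.smul_apply, smul_eq_mul]
    rw [hx i j, he i j]
    ring
  have hop : ∀ (x : Matrix (Fin 6) (Fin 6) ℝ) (s t : ℝ),
      curvOp R (s • e + t • x) = s ^ 2 * q + 2 * s * t * curvBil R e x + t ^ 2 * curvOp R x := by
    intro x s t
    have h1 : curvBil R e (t • x) = t * curvBil R e x := by
      unfold curvBil
      simp only [Finset.mul_sum]
      refine Finset.sum_congr rfl fun i _ => Finset.sum_congr rfl fun j _ =>
        Finset.sum_congr rfl fun k _ => Finset.sum_congr rfl fun l _ => ?_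
      simp only [Matrix.smul_apply, smul_eq_mul]
      ring
    have h2 : curvOp R (t • x) = t ^ 2 * curvOp R x := by
      unfold curvOp
      simp only [Finset.mul_sum]
      refine Finset.sum_congr rfl fun i _ => Finset.sum_congr rfl fun j _ =>
        Finset.sum_congr rfl fun k _ => Finset.sum_congr rfl fun l _ => ?_
      simp only [Matrix.smul_apply, smul_eq_mul]
      ring
    rw [curvOp_smul_add R hA.pair, h1, h2]
    ring
  have hB : ∀ x : Matrix (Fin 6) (Fin 6) ℝ, (∀ i j, x i j = - x j i) →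
      curvBil R e x = - (-q / α ^ 2) * α * W e e x := by
    intro x hx
    set B := curvBil R e x
    set E := W e e x
    set w := W e x x
    set c := W x x x
    set r := curvOp R x
    have hz := lin_zero (-6 * q ^ 3 * α * E + 6 * q ^ 2 * B * α ^ 2)
      (fun t => (-q) ^ 3 * ((9 * E ^ 2 + 6 * α * w) + t * (2 * α * c + 18 * E * w) +
        t ^ 2 * (9 * w ^ 2 + 6 * E * c) + t ^ 3 * (6 * w * c) + t ^ 4 * c ^ 2) +
        α ^ 2 * ((3 * q ^ 2 * r + 12 * q * B ^ 2) + t * (12 * q * B * r + 8 * B ^ 3) +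
        t ^ 2 * (3 * q * r ^ 2 + 12 * B ^ 2 * r) + t ^ 3 * (6 * B * r ^ 2) + t ^ 4 * r ^ 3))
      (by fun_prop) (fun t => by
        have h1 := hmax ((1 : ℝ) • e + t • x) (hskew x 1 t hx)
        rw [W_cube, hop] at h1
        have h2 : t * ((-6 * q ^ 3 * α * E + 6 * q ^ 2 * B * α ^ 2) + t *
          ((-q) ^ 3 * ((9 * E ^ 2 + 6 * α * w) + t * (2 * α * c + 18 * E * w) +
          t ^ 2 * (9 * w ^ 2 + 6 * E * c) + t ^ 3 * (6 * w * c) + t ^ 4 * c ^ 2) +
          α ^ 2 * ((3 * q ^ 2 * r + 12 * q * B ^ 2) + t * (12 * q * B * r + 8 * B ^ 3) +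
          t ^ 2 * (3 * q * r ^ 2 + 12 * B ^ 2 * r) + t ^ 3 * (6 * B * r ^ 2) + t ^ 4 * r ^ 3))) =
          (-q) ^ 3 * (1 ^ 3 * α + 3 * 1 ^ 2 * t * E + 3 * 1 * t ^ 2 * w + t ^ 3 * c) ^ 2 -
          (-(1 ^ 2 * q + 2 * 1 * t * B + t ^ 2 * r)) ^ 3 * α ^ 2 := by ring
        rw [h2]
        linarith)
    have hq2 : q ^ 2 * α ≠ 0 := mul_ne_zero (pow_ne_zero 2 (ne_of_lt hq)) hα
    have h3 : (q ^ 2 * α) * (B * α - q * E) = 0 := by linarith
    have h4 : B * α - q * E = 0 := (mul_eq_zero.mp h3).resolve_left hq2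
    field_simp
    linarith
  refine key R hA e he (-q / α ^ 2) hμ hα ?_ hB ?_ ?_
  · rw [← hαdef, ← hqdef]
    field_simp
  · intro x hx hEx
    obtain ⟨s, hs1, hs2⟩ := cubic_root (W e x x / α) (W x x x / α)
    have hBx : curvBil R e x = 0 := by rw [hB x hx, hEx, mul_zero]
    have h0 := hdeg (s • e + (1 : ℝ) • x) (hskew x s 1 hx) (by
      rw [W_cube, hEx, ← hαdef]
      have : α * (s ^ 3 + 3 * (W e x x / α) * s + W x x x / α) = 0 := by rw [hs1, mul_zero]
      field_simp at this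
      linarith)
    rw [hop, hBx] at h0
    nlinarith [sq_nonneg s]
  · intro x hx hEx
    obtain ⟨s, hs1, hs2⟩ := cubic_root (W e x x / α) (W x x x / α)
    have hBx : curvBil R e x = 0 := by rw [hB x hx, hEx, mul_zero]
    have h0 := hdeg (s • e + (1 : ℝ) • x) (hskew x s 1 hx) (by
      rw [W_cube, hEx, ← hαdef]
      have : α * (s ^ 3 + 3 * (W e x x / α) * s + W x x x / α) = 0 := by rw [hs1, mul_zero]
      field_simp at this
      linarith)
    rw [hop, hBx] at h0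
    have h5 : 3 * (-q / α ^ 2) * α * W e x x = (-q) * (3 * (W e x x / α)) := by
      field_simp
    rw [← hαdef, h5]
    nlinarith [mul_le_mul_of_nonneg_left hs2 (show 0 ≤ -q by linarith)]

end HopfSix
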