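import Pool.Agent.Lib.HopfSix.Decomp
open Equiv Finset Matrix

namespace HopfSix

/-- the symmetric bilinear form of the curvature operator -/
def curvBil (R : Fin 6 → Fin 6 → Fin 6 → Fin 6 → ℝ) (v w : Matrix (Fin 6) (Fin 6) ℝ) : ℝ :=
  ∑ i, ∑ j, ∑ k, ∑ l, R i j k l * v i j * w k l

lemma ip_comm (f g : Matrix (Fin 6) (Fin 6) ℝ) : ip f g = ip g f := by
  unfold ip
  exact Finset.sum_congr rfl fun i _ => Finset.sum_congr rfl fun j _ => mul_comm _ _

lemma ip_sub_smul (f g e : Matrix (Fin 6) (Fin 6) ℝ) (c : ℝ) :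
    ip f (g - c • e) = ip f g - c * ip f e := by
  unfold ip
  rw [Finset.mul_sum, ← Finset.sum_sub_distrib]
  refine Finset.sum_congr rfl fun i _ => ?_
  rw [Finset.mul_sum, ← Finset.sum_sub_distrib]
  refine Finset.sum_congr rfl fun j _ => ?_
  rw [Matrix.sub_apply, Matrix.smul_apply, smul_eq_mul]
  ring

lemma ip_smul (f e : Matrix (Fin 6) (Fin 6) ℝ) (c : ℝ) : ip f (c • e) = c * ip f e := by
  unfold ip
  rw [Finset.mul_sum]
  refine Finset.sum_congr rfl fun i _ => ?_
  rw [Finset.mul_sum]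
  refine Finset.sum_congr rfl fun j _ => ?_
  rw [Matrix.smul_apply, smul_eq_mul]
  ring

lemma curvOp_decomp {ι : Type*} [Fintype ι] (f : ι → Matrix (Fin 6) (Fin 6) ℝ)
    (S : Fin 6 → Fin 6 → Fin 6 → Fin 6 → ℝ)
    (hS : ∀ i j k l, S i j k l = ∑ x, f x i j * f x k l) (v : Matrix (Fin 6) (Fin 6) ℝ) :
    curvOp S v = ∑ x, ip (f x) v ^ 2 := by
  have h : ∀ x, ip (f x) v ^ 2 = ∑ i, ∑ j, ∑ k, ∑ l, f x i j * f x k l * v i j * v k l := by
    intro x
    rw [sq]
    unfold ip
    rw [Finset.sum_mul_sum]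
    simp only [Finset.sum_mul_sum]
    refine Finset.sum_congr rfl fun i _ => ?_
    rw [Finset.sum_comm]
    refine Finset.sum_congr rfl fun j _ => Finset.sum_congr rfl fun k _ =>
      Finset.sum_congr rfl fun l _ => ?_
    ring
  simp only [h]
  unfold curvOp
  symm
  rw [Finset.sum_comm]
  refine Finset.sum_congr rfl fun i _ => ?_
  rw [Finset.sum_comm]
  refine Finset.sum_congr rfl fun j _ => ?_
  rw [Finset.sum_comm]
  refine Finset.sum_congr rfl fun k _ => ?_
  rw [Finset.sum_comm]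
  refine Finset.sum_congr rfl fun l _ => ?_
  rw [hS, Finset.sum_mul, Finset.sum_mul]

lemma curvOp_add_sq (R : Fin 6 → Fin 6 → Fin 6 → Fin 6 → ℝ) (E v : Matrix (Fin 6) (Fin 6) ℝ)
    (μ : ℝ) : curvOp (fun i j k l => R i j k l + μ * E i j * E k l) v =
      curvOp R v + μ * ip E v ^ 2 := by
  have h : μ * ip E v ^ 2 = ∑ i, ∑ j, ∑ k, ∑ l, μ * E i j * E k l * v i j * v k l := by
    rw [sq]
    unfold ip
    rw [Finset.sum_mul_sum, Finset.mul_sum]
    refine Finset.sum_congr rfl fun i _ => ?_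
    simp only [Finset.sum_mul_sum]
    rw [Finset.sum_comm, Finset.mul_sum]
    refine Finset.sum_congr rfl fun j _ => ?_
    rw [Finset.mul_sum]
    refine Finset.sum_congr rfl fun k _ => ?_
    rw [Finset.mul_sum]
    refine Finset.sum_congr rfl fun l _ => ?_
    ring
  rw [h]
  unfold curvOp
  simp only [← Finset.sum_add_distrib]
  refine Finset.sum_congr rfl fun i _ => Finset.sum_congr rfl fun j _ =>
    Finset.sum_congr rfl fun k _ => Finset.sum_congr rfl fun l _ => ?_
  ring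

lemma curvOp_smul_add (R : Fin 6 → Fin 6 → Fin 6 → Fin 6 → ℝ)
    (hpair : ∀ i j k l, R i j k l = R k l i j) (e y : Matrix (Fin 6) (Fin 6) ℝ) (s : ℝ) :
    curvOp R (s • e + y) = s ^ 2 * curvOp R e + 2 * s * curvBil R e y + curvOp R y := by
  have hsymm : curvBil R e y = ∑ i, ∑ j, ∑ k, ∑ l, R i j k l * y i j * e k l := by
    unfold curvBil
    have h1 : ∑ i, ∑ j, ∑ k, ∑ l, R i j k l * e i j * y k l =
        ∑ k, ∑ l, ∑ i, ∑ j, R i j k l * e i j * y k l := by
      calc ∑ i, ∑ j, ∑ k, ∑ l, R i j k l * e i j * y k l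
          = ∑ k, ∑ i, ∑ j, ∑ l, R i j k l * e i j * y k l := sum_comm3 _
        _ = ∑ k, ∑ l, ∑ i, ∑ j, R i j k l * e i j * y k l :=
          Finset.sum_congr rfl fun k _ => sum_comm3 _
    rw [h1]
    refine Finset.sum_congr rfl fun i _ => Finset.sum_congr rfl fun j _ =>
      Finset.sum_congr rfl fun k _ => Finset.sum_congr rfl fun l _ => ?_
    rw [hpair k l i j]
    ring
  have h2 : 2 * s * curvBil R e y = s * curvBil R e y + s * curvBil R e y := by ring
  rw [h2]
  nth_rw 2 [hsymm]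
  unfold curvOp curvBil
  simp only [Finset.mul_sum, ← Finset.sum_add_distrib]
  refine Finset.sum_congr rfl fun i _ => Finset.sum_congr rfl fun j _ =>
    Finset.sum_congr rfl fun k _ => Finset.sum_congr rfl fun l _ => ?_
  simp only [Matrix.add_apply, Matrix.smul_apply, smul_eq_mul]
  ring

lemma polar (e f g : Matrix (Fin 6) (Fin 6) ℝ) (hf : ∀ i j, f i j = - f j i)
    (hg : ∀ i j, g i j = - g j i) (hfe : ip f e = 0) (hge : ip g e = 0) :
    2 * W e (cr f g) (cr f g) + W e (cr f f) (cr g g) = 0 := by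
  have base : ∀ h : Matrix (Fin 6) (Fin 6) ℝ, (∀ i j, h i j = - h j i) → ip h e = 0 →
      W e (cr h h) (cr h h) = 0 := by
    intro h hh hhe
    rw [W_comm13, W_eq_ip, cr_cr h hh, ip_smul, ip_comm, hhe, mul_zero]
  have e1 := base f hf hfe
  have e2 := base g hg hge
  have h1 : ∀ c : ℝ, W e (cr (f + c • g) (f + c • g)) (cr (f + c • g) (f + c • g)) = 0 := by
    intro c
    apply base
    · intro i j
      simp only [Matrix.add_apply, Matrix.smul_apply, smul_eq_mul]
      rw [hf i j, hg i j]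
      ring
    · have : ip (f + c • g) e = ip f e + c * ip g e := by
        unfold ip
        rw [Finset.mul_sum, ← Finset.sum_add_distrib]
        refine Finset.sum_congr rfl fun i _ => ?_
        rw [Finset.mul_sum, ← Finset.sum_add_distrib]
        refine Finset.sum_congr rfl fun j _ => ?_
        rw [Matrix.add_apply, Matrix.smul_apply, smul_eq_mul]
        ring
      rw [this, hfe, hge]
      ring
  have h2 : ∀ c : ℝ, cr (f + c • g) (f + c • g) = cr f f + ((2 * c) • cr f g + (c ^ 2) • cr g g) := by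
    intro c
    rw [cr_add_left, cr_smul_left, cr_comm f, cr_comm g, cr_add_left, cr_smul_left,
      cr_add_left, cr_smul_left, cr_comm g f]
    funext i j
    simp only [Matrix.add_apply, Matrix.smul_apply, smul_eq_mul]
    ring
  have h3 : ∀ c : ℝ, W e (cr f f + ((2 * c) • cr f g + (c ^ 2) • cr g g))
      (cr f f + ((2 * c) • cr f g + (c ^ 2) • cr g g)) =
      W e (cr f f) (cr f f) + 4 * c * W e (cr f f) (cr f g) +
      c ^ 2 * (4 * W e (cr f g) (cr f g) + 2 * W e (cr f f) (cr g g)) +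
      4 * c ^ 3 * W e (cr f g) (cr g g) + c ^ 4 * W e (cr g g) (cr g g) := by
    intro c
    simp only [W_add2, W_add3, W_smul2, W_smul3]
    rw [W_comm23 e (cr f g) (cr f f), W_comm23 e (cr g g) (cr f f), W_comm23 e (cr g g) (cr f g)]
    ring
  have a1 := h1 1
  rw [h2, h3] at a1
  have a2 := h1 (-1)
  rw [h2, h3] at a2
  rw [e1, e2] at a1 a2
  linarith

end HopfSix
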