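import Pool.Agent.Lib.HopfSix.Bil
open Equiv Finset Matrix

namespace HopfSix

lemma key (R : Fin 6 → Fin 6 → Fin 6 → Fin 6 → ℝ) (hA : IsAlgCurv R)
    (e : Matrix (Fin 6) (Fin 6) ℝ) (he : ∀ i j, e i j = - e j i) (μ : ℝ) (hμ : 0 < μ)
    (hα : W e e e ≠ 0) (hq : curvOp R e = - μ * W e e e ^ 2)
    (hB : ∀ x : Matrix (Fin 6) (Fin 6) ℝ, (∀ i j, x i j = - x j i) →
      curvBil R e x = - μ * W e e e * W e e x)
    (hpos1 : ∀ x : Matrix (Fin 6) (Fin 6) ℝ, (∀ i j, x i j = - x j i) → W e e x = 0 →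
      0 ≤ curvOp R x)
    (hpos2 : ∀ x : Matrix (Fin 6) (Fin 6) ℝ, (∀ i j, x i j = - x j i) → W e e x = 0 →
      0 ≤ curvOp R x + 3 * μ * W e e e * W e x x) :
    0 ≤ gaussBonnet R := by
  set α := W e e e with hαdef
  set E := cr e e with hE
  have hEskew : ∀ i j, E i j = - E j i := cr_skew e e
  have hEip : ∀ v, ip E v = W e e v := fun v => by rw [W_eq_ip, ip_comm]
  have hEE : cr E E = ((32 / 3) * α) • e := cr_cr e he
  -- the form P
  set P : Fin 6 → Fin 6 → Fin 6 → Fin 6 → ℝ := fun i j k l => R i j k l + μ * E i j * E k l with hP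
  have hPop : ∀ v, curvOp P v = curvOp R v + μ * W e e v ^ 2 := by
    intro v
    rw [hP, curvOp_add_sq, hEip]
  have hPpos : ∀ v : Matrix (Fin 6) (Fin 6) ℝ, (∀ i j, v i j = - v j i) → 0 ≤ curvOp P v := by
    intro v hv
    rw [hPop]
    set s := W e e v / α with hs
    have hv' : v = s • e + (v - s • e) := by abel
    have hy : ∀ i j, (v - s • e) i j = - (v - s • e) j i := by
      intro i j
      simp only [Matrix.sub_apply, Matrix.smul_apply, smul_eq_mul]
      rw [hv i j, he i j]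
      ring
    have hWy : W e e (v - s • e) = 0 := by
      rw [W_eq_ip, ip_comm, ip_sub_smul, hEip, hEip, ← hαdef, hs]
      field_simp
      ring
    have h1 := hpos1 _ hy hWy
    have h2 : curvOp R v = s ^ 2 * curvOp R e + curvOp R (v - s • e) := by
      conv_lhs => rw [hv']
      rw [curvOp_smul_add R hA.pair, hB _ hy, hWy]
      ring
    have h3 : W e e v = s * α := by rw [hs]; field_simp
    rw [h2, hq, h3]
    linarith [h1, show μ * (s * α) ^ 2 = s ^ 2 * (μ * α ^ 2) by ring,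
      show s ^ 2 * (-μ * α ^ 2) = - (s ^ 2 * (μ * α ^ 2)) by ring]
  obtain ⟨f, hfskew, hf⟩ := psd_decomp P
    (fun i j k l => by simp only [hP]; rw [hA.skew i j, hEskew i j]; ring)
    (fun i j k l => by simp only [hP]; rw [hA.pair i j]; ring) hPpos
  have hfop : ∀ v, curvOp P v = ∑ x, ip (f x) v ^ 2 := fun v => curvOp_decomp f P hf v
  -- f a is orthogonal to e
  have hfe : ∀ x, ip (f x) e = 0 := by
    have h0 : ∑ x, ip (f x) e ^ 2 = 0 := by
      rw [← hfop, hPop, hq]
      ring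
    intro x
    have := (Finset.sum_eq_zero_iff_of_nonneg (fun x _ => sq_nonneg _)).mp h0 x (Finset.mem_univ _)
    exact pow_eq_zero_iff (two_ne_zero) |>.mp this
  -- decomposition of R
  let s : Option (Fin 6 × Fin 6) → ℝ := fun o => o.elim (-μ) (fun _ => 1)
  let F : Option (Fin 6 × Fin 6) → Matrix (Fin 6) (Fin 6) ℝ := fun o => o.elim E f
  have hR : ∀ i j k l, R i j k l = ∑ x, s x * F x i j * F x k l := by
    intro i j k l
    rw [Fintype.sum_option]
    simp only [s, F, Option.elim_none, Option.elim_some, one_mul]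
    rw [← hf]
    simp only [hP]
    ring
  have hbian : ∀ h, ∑ x, W (f x) (f x) h = μ * W E E h := by
    intro h
    have := bianchi_sum s F R hA hR h
    rw [Fintype.sum_option] at this
    simp only [s, F, Option.elim_none, Option.elim_some, one_mul] at this
    linarith
  have hcr : ∑ x, cr (f x) (f x) = (μ * ((32 / 3) * α)) • e := by
    have h1 : ∑ x, cr (f x) (f x) = μ • cr E E := by
      funext k l
      rw [Matrix.sum_apply, Matrix.smul_apply, smul_eq_mul]
      exact hbian _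
    rw [h1, hEE, smul_smul]
  have hS1 : ∀ x, W (f x) E E = 0 := by
    intro x
    rw [W_comm13, W_eq_ip, hEE, ip_smul, hfe, mul_zero]
  have hEEE : W E E E = (32 / 3) * α ^ 2 := by
    rw [W_eq_ip, hEE, ip_smul, hEip, ← hαdef]
    ring
  -- Gauss-Bonnet in terms of the decomposition
  have hGB : gaussBonnet R = (∑ a, ∑ b, ∑ c, W (f a) (f b) (f c) ^ 2) -
      3 * μ * (∑ a, ∑ b, W (f a) (f b) E ^ 2) - μ ^ 3 * ((32 / 3) * α ^ 2) ^ 2 := by
    rw [gb_decomp s F R hR]
    have g1 : ∀ a b, W (f a) E (f b) = W (f a) (f b) E := fun a b => W_comm23 _ _ _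
    have g2 : ∀ a b, W E (f a) (f b) = W (f a) (f b) E := fun a b => by
      rw [W_comm12, W_comm23]
    have g3 : ∀ a, W E (f a) E = 0 := fun a => by rw [W_comm12, hS1]
    have g4 : ∀ a, W E E (f a) = 0 := fun a => by rw [W_comm13, hS1]
    simp only [Fintype.sum_option, s, F, Option.elim_none, Option.elim_some, one_mul, mul_one]
    simp only [g1, g2, g3, g4, hS1, hEEE]
    simp only [Finset.sum_add_distrib, ← Finset.mul_sum]
    simp
    ring
  -- the key inequality
  have hkey : ∀ a b, 0 ≤ (∑ c, W (f a) (f b) (f c) ^ 2) +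
      3 * μ * α * W e (cr (f a) (f b)) (cr (f a) (f b)) - 3 * μ * W (f a) (f b) E ^ 2 := by
    intro a b
    set w := W (f a) (f b) E with hw
    set c := cr (f a) (f b) with hc
    have hcs : ∀ i j, c i j = - c j i := cr_skew _ _
    have hWc : W e e c = w := by
      rw [W_eq_ip, ip_comm, hw, W_eq_ip (f a) (f b) E, ip_comm]
    set x := c - (w / α) • e with hx
    have hxs : ∀ i j, x i j = - x j i := by
      intro i j
      simp only [hx, Matrix.sub_apply, Matrix.smul_apply, smul_eq_mul]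
      rw [hcs i j, he i j]
      ring
    have hWx : W e e x = 0 := by
      rw [hx, W_eq_ip, ip_comm, ip_sub_smul, hEip, hEip, hWc, ← hαdef]
      field_simp
      ring
    have h1 := hpos2 x hxs hWx
    have h2 : curvOp R x = ∑ d, W (f a) (f b) (f d) ^ 2 := by
      have := hPop x
      rw [hWx] at this
      have h3 : curvOp R x = curvOp P x := by rw [this]; ring
      rw [h3, hfop]
      refine Finset.sum_congr rfl fun d _ => ?_
      rw [hx, ip_sub_smul, hfe, mul_zero, sub_zero, hc, W_eq_ip]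
    have h4 : W e x x = W e c c - w ^ 2 / α := by
      have hx' : x = c + (-(w / α)) • e := by rw [hx, neg_smul, sub_eq_add_neg]
      rw [hx', W_add2, W_add3, W_add3, W_smul2, W_smul3, W_smul2, W_smul3, W_comm23 e c e, hWc,
        ← hαdef]
      field_simp
      ring
    rw [h2, h4] at h1
    have h5 : 3 * μ * α * (W e c c - w ^ 2 / α) = 3 * μ * α * W e c c - 3 * μ * w ^ 2 := by
      field_simp
    rw [h5] at h1
    linarith
  have hsum : 0 ≤ (∑ a, ∑ b, ∑ c, W (f a) (f b) (f c) ^ 2) +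
      3 * μ * α * (∑ a, ∑ b, W e (cr (f a) (f b)) (cr (f a) (f b))) -
      3 * μ * (∑ a, ∑ b, W (f a) (f b) E ^ 2) := by
    have := Finset.sum_nonneg fun a (_ : a ∈ (Finset.univ : Finset (Fin 6 × Fin 6))) =>
      Finset.sum_nonneg fun b (_ : b ∈ (Finset.univ : Finset (Fin 6 × Fin 6))) => hkey a b
    simpa only [Finset.sum_add_distrib, Finset.sum_sub_distrib, ← Finset.mul_sum] using this
  have hpol : 2 * (∑ a, ∑ b, W e (cr (f a) (f b)) (cr (f a) (f b))) +
      (∑ a, ∑ b, W e (cr (f a) (f a)) (cr (f b) (f b))) = 0 := by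
    simp only [Finset.mul_sum, ← Finset.sum_add_distrib]
    refine Finset.sum_eq_zero fun a _ => Finset.sum_eq_zero fun b _ => ?_
    exact polar e (f a) (f b) (hfskew a) (hfskew b) (hfe a) (hfe b)
  have hd : (∑ a, ∑ b, W e (cr (f a) (f a)) (cr (f b) (f b))) =
      (μ * ((32 / 3) * α)) ^ 2 * α := by
    have h1 : ∀ a, ∑ b, W e (cr (f a) (f a)) (cr (f b) (f b)) =
        W e (cr (f a) (f a)) (∑ b, cr (f b) (f b)) := fun a => (W_sum3 _ _ _ _).symm
    simp only [h1]
    rw [← W_sum2, hcr, W_smul2, W_smul3, ← hαdef]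
    ring
  rw [hd] at hpol
  rw [hGB]
  set T3 := ∑ a, ∑ b, ∑ c, W (f a) (f b) (f c) ^ 2
  set T2 := ∑ a, ∑ b, W (f a) (f b) E ^ 2
  set D := ∑ a, ∑ b, W e (cr (f a) (f b)) (cr (f a) (f b))
  have hD : D = - (μ * ((32 / 3) * α)) ^ 2 * α / 2 := by linarith
  rw [hD] at hsum
  have hfin : 0 ≤ μ ^ 3 * α ^ 4 * (1 / 2 * (32 / 3) ^ 2) := by positivity
  nlinarith [hsum, hfin]

end HopfSix
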