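import Mathlib
open Equiv Finset

set_option linter.unusedSimpArgs false
set_option linter.unusedVariables false

namespace HopfSix

lemma sum_perm_step {n : ℕ} (F : (Fin (n+1) → Fin (n+1)) → ℝ) :
    ∑ σ : Perm (Fin (n+1)), ((Perm.sign σ : ℤ) : ℝ) * F σ = ∑ p : Fin (n+1),
      (if p = 0 then 1 else -1) * ∑ τ : Perm (Fin n), ((Perm.sign τ : ℤ) : ℝ) *
        F (Fin.cons p (fun x => swap 0 p (τ x).succ)) := by
  rw [Finset.univ_perm_fin_succ, Finset.sum_map, Fintype.sum_prod_type]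
  refine Finset.sum_congr rfl fun p _ => ?_
  rw [Finset.mul_sum]
  refine Finset.sum_congr rfl fun τ _ => ?_
  have h : (⇑(Perm.decomposeFin.symm (p, τ)) : Fin (n+1) → Fin (n+1)) =
      Fin.cons p (fun x => swap 0 p (τ x).succ) := by
    funext x
    refine Fin.cases ?_ (fun y => ?_) x
    · simp [Perm.decomposeFin_symm_apply_zero]
    · simp [Perm.decomposeFin_symm_apply_succ]
  have h2 := Perm.decomposeFin.symm_sign p τ
  simp only [Equiv.coe_toEmbedding, h, h2]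
  split_ifs <;> simp

lemma sum_perm4 (F : Fin 4 → Fin 4 → Fin 4 → Fin 4 → ℝ) :
    ∑ σ : Perm (Fin 4), ((Perm.sign σ : ℤ) : ℝ) * F (σ 0) (σ 1) (σ 2) (σ 3) =
      F 0 1 2 3 - F 0 1 3 2 - F 0 2 1 3 + F 0 2 3 1 + F 0 3 1 2 - F 0 3 2 1
      - F 1 0 2 3 + F 1 0 3 2 + F 1 2 0 3 - F 1 2 3 0 - F 1 3 0 2 + F 1 3 2 0
      + F 2 0 1 3 - F 2 0 3 1 - F 2 1 0 3 + F 2 1 3 0 + F 2 3 0 1 - F 2 3 1 0
      - F 3 0 1 2 + F 3 0 2 1 + F 3 1 0 2 - F 3 1 2 0 - F 3 2 0 1 + F 3 2 1 0 := by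
  rw [sum_perm_step (fun g => F (g 0) (g 1) (g 2) (g 3))]
  have h3 : ∀ p : Fin 4, ∑ τ : Perm (Fin 3), ((Perm.sign τ : ℤ) : ℝ) *
      F p (swap 0 p (τ 0).succ) (swap 0 p (τ 1).succ) (swap 0 p (τ 2).succ) =
      (F p (swap 0 p 1) (swap 0 p 2) (swap 0 p 3) - F p (swap 0 p 1) (swap 0 p 3) (swap 0 p 2)
      - F p (swap 0 p 2) (swap 0 p 1) (swap 0 p 3) + F p (swap 0 p 2) (swap 0 p 3) (swap 0 p 1)
      + F p (swap 0 p 3) (swap 0 p 1) (swap 0 p 2) - F p (swap 0 p 3) (swap 0 p 2) (swap 0 p 1)) := by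
    intro p
    rw [sum_perm_step (fun g => F p (swap 0 p (g 0).succ) (swap 0 p (g 1).succ)
      (swap 0 p (g 2).succ))]
    have h2 : ∀ q : Fin 3, ∑ τ : Perm (Fin 2), ((Perm.sign τ : ℤ) : ℝ) *
        F p (swap 0 p q.succ) (swap 0 p (swap 0 q (τ 0).succ).succ)
          (swap 0 p (swap 0 q (τ 1).succ).succ) =
        F p (swap 0 p q.succ) (swap 0 p (swap 0 q 1).succ)
          (swap 0 p (swap 0 q 2).succ) - F p (swap 0 p q.succ) (swap 0 p (swap 0 q 2).succ)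
          (swap 0 p (swap 0 q 1).succ) := by
      intro q
      rw [sum_perm_step (fun g => F p (swap 0 p q.succ) (swap 0 p (swap 0 q (g 0).succ).succ)
          (swap 0 p (swap 0 q (g 1).succ).succ))]
      have h1 : ∀ r : Fin 2, ∑ τ : Perm (Fin 1), ((Perm.sign τ : ℤ) : ℝ) *
         F p (swap 0 p q.succ) (swap 0 p (swap 0 q r.succ).succ)
          (swap 0 p (swap 0 q (swap 0 r (τ 0).succ).succ).succ) =
          F p (swap 0 p q.succ) (swap 0 p (swap 0 q r.succ).succ)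
          (swap 0 p (swap 0 q (swap 0 r 1).succ).succ) := by
        intro r
        rw [Fintype.sum_subsingleton _ (1 : Perm (Fin 1))]
        simp
      exact (Finset.sum_congr rfl fun r _ => congrArg _ (h1 r)).trans (by
        simp [Fin.sum_univ_succ]
        ring)
    exact (Finset.sum_congr rfl fun r _ => congrArg _ (h2 r)).trans (by
        simp [Fin.sum_univ_succ, swap_apply_def]
        ring)
  exact (Finset.sum_congr rfl fun r _ => congrArg _ (h3 r)).trans (by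
        simp [Fin.sum_univ_succ, swap_apply_def]
        ring)


/-- The alternating trilinear form `6!`-antisymmetrization on `6 × 6` matrices. -/
noncomputable def W (f g h : Matrix (Fin 6) (Fin 6) ℝ) : ℝ :=
  ∑ σ : Perm (Fin 6), ((Perm.sign σ : ℤ) : ℝ) *
    (f (σ 0) (σ 1) * g (σ 2) (σ 3) * h (σ 4) (σ 5))

/-- polarized Pfaffian of the principal `4 × 4` block with rows `a b c d` -/
def pf4 (f : Matrix (Fin 6) (Fin 6) ℝ) (a b c d : Fin 6) : ℝ :=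
  f a b * f c d - f a c * f b d + f a d * f b c

lemma W_expand (h f : Matrix (Fin 6) (Fin 6) ℝ) (hf : ∀ i j, f i j = - f j i) :
    W h f f = ∑ p : Fin 6, (if p = 0 then 1 else -1) * ∑ q : Fin 5, (if q = 0 then 1 else -1) *
      (h p (swap 0 p q.succ) * (8 * pf4 f (swap 0 p (swap 0 q 1).succ)
        (swap 0 p (swap 0 q 2).succ) (swap 0 p (swap 0 q 3).succ) (swap 0 p (swap 0 q 4).succ))) := by
  unfold W
  rw [sum_perm_step (fun g => h (g 0) (g 1) * f (g 2) (g 3) * f (g 4) (g 5))]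
  refine Finset.sum_congr rfl fun p _ => congrArg _ ?_
  have h2 := sum_perm_step (fun g : Fin 5 → Fin 5 => h p (swap 0 p (g 0).succ) *
    f (swap 0 p (g 1).succ) (swap 0 p (g 2).succ) * f (swap 0 p (g 3).succ) (swap 0 p (g 4).succ))
  refine h2.trans (Finset.sum_congr rfl fun q _ => congrArg _ ?_)
  have h3 := sum_perm4 (fun a b c d => h p (swap 0 p q.succ) *
    f (swap 0 p (swap 0 q a.succ).succ) (swap 0 p (swap 0 q b.succ).succ) *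
    f (swap 0 p (swap 0 q c.succ).succ) (swap 0 p (swap 0 q d.succ).succ))
  refine h3.trans ?_
  have e1 : (0 : Fin 4).succ = (1 : Fin 5) := rfl
  have e2 : (1 : Fin 4).succ = (2 : Fin 5) := rfl
  have e3 : (2 : Fin 4).succ = (3 : Fin 5) := rfl
  have e4 : (3 : Fin 4).succ = (4 : Fin 5) := rfl
  simp only [e1, e2, e3, e4]
  generalize (swap 0 p (swap 0 q 1).succ) = a
  generalize (swap 0 p (swap 0 q 2).succ) = b
  generalize (swap 0 p (swap 0 q 3).succ) = c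
  generalize (swap 0 p (swap 0 q 4).succ) = d
  rw [hf b a, hf c a, hf d a, hf c b, hf d b, hf d c]
  unfold pf4
  ring

/-- the adjoint (sharp) of a skew matrix -/
def shp (f : Matrix (Fin 6) (Fin 6) ℝ) : Matrix (Fin 6) (Fin 6) ℝ :=
  !![0, pf4 f 2 3 4 5, - pf4 f 1 3 4 5, pf4 f 1 2 4 5, - pf4 f 1 2 3 5, pf4 f 1 2 3 4;
    - pf4 f 2 3 4 5, 0, pf4 f 0 3 4 5, - pf4 f 0 2 4 5, pf4 f 0 2 3 5, - pf4 f 0 2 3 4;
    pf4 f 1 3 4 5, - pf4 f 0 3 4 5, 0, pf4 f 0 1 4 5, - pf4 f 0 1 3 5, pf4 f 0 1 3 4;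
    - pf4 f 1 2 4 5, pf4 f 0 2 4 5, - pf4 f 0 1 4 5, 0, pf4 f 0 1 2 5, - pf4 f 0 1 2 4;
    pf4 f 1 2 3 5, - pf4 f 0 2 3 5, pf4 f 0 1 3 5, - pf4 f 0 1 2 5, 0, pf4 f 0 1 2 3;
    - pf4 f 1 2 3 4, pf4 f 0 2 3 4, - pf4 f 0 1 3 4, pf4 f 0 1 2 4, - pf4 f 0 1 2 3, 0]

lemma W_eq_shp (h f : Matrix (Fin 6) (Fin 6) ℝ) (hf : ∀ i j, f i j = - f j i) :
    W h f f = 8 * ∑ i, ∑ j, h i j * shp f i j := by
  rw [W_expand h f hf]
  simp only [Fin.sum_univ_succ, Finset.univ_eq_empty, Finset.sum_empty]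
  simp [swap_apply_def, shp]
  have h10 : f 1 0 = - f 0 1 := hf 1 0
  have h20 : f 2 0 = - f 0 2 := hf 2 0
  have h21 : f 2 1 = - f 1 2 := hf 2 1
  have h30 : f 3 0 = - f 0 3 := hf 3 0
  have h31 : f 3 1 = - f 1 3 := hf 3 1
  have h32 : f 3 2 = - f 2 3 := hf 3 2
  have h40 : f 4 0 = - f 0 4 := hf 4 0
  have h41 : f 4 1 = - f 1 4 := hf 4 1
  have h42 : f 4 2 = - f 2 4 := hf 4 2
  have h43 : f 4 3 = - f 3 4 := hf 4 3
  have h50 : f 5 0 = - f 0 5 := hf 5 0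
  have h51 : f 5 1 = - f 1 5 := hf 5 1
  have h52 : f 5 2 = - f 2 5 := hf 5 2
  have h53 : f 5 3 = - f 3 5 := hf 5 3
  have h54 : f 5 4 = - f 4 5 := hf 5 4
  simp only [pf4, h10, h20, h21, h30, h31, h32, h40, h41, h42, h43, h50, h51, h52, h53, h54]
  ring

/-- the Pfaffian of a skew `6 × 6` matrix -/
def pf (f : Matrix (Fin 6) (Fin 6) ℝ) : ℝ :=
  f 0 1 * pf4 f 2 3 4 5 - f 0 2 * pf4 f 1 3 4 5 + f 0 3 * pf4 f 1 2 4 5
    - f 0 4 * pf4 f 1 2 3 5 + f 0 5 * pf4 f 1 2 3 4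

lemma W_self (f : Matrix (Fin 6) (Fin 6) ℝ) (hf : ∀ i j, f i j = - f j i) :
    W f f f = 48 * pf f := by
  rw [W_eq_shp f f hf]
  have h10 : f 1 0 = - f 0 1 := hf 1 0
  have h20 : f 2 0 = - f 0 2 := hf 2 0
  have h21 : f 2 1 = - f 1 2 := hf 2 1
  have h30 : f 3 0 = - f 0 3 := hf 3 0
  have h31 : f 3 1 = - f 1 3 := hf 3 1
  have h32 : f 3 2 = - f 2 3 := hf 3 2
  have h40 : f 4 0 = - f 0 4 := hf 4 0
  have h41 : f 4 1 = - f 1 4 := hf 4 1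
  have h42 : f 4 2 = - f 2 4 := hf 4 2
  have h43 : f 4 3 = - f 3 4 := hf 4 3
  have h50 : f 5 0 = - f 0 5 := hf 5 0
  have h51 : f 5 1 = - f 1 5 := hf 5 1
  have h52 : f 5 2 = - f 2 5 := hf 5 2
  have h53 : f 5 3 = - f 3 5 := hf 5 3
  have h54 : f 5 4 = - f 4 5 := hf 5 4
  have h00 : f 0 0 = 0 := by have := hf 0 0; linarith
  have h11 : f 1 1 = 0 := by have := hf 1 1; linarith
  have h22 : f 2 2 = 0 := by have := hf 2 2; linarith
  have h33 : f 3 3 = 0 := by have := hf 3 3; linarith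
  have h44 : f 4 4 = 0 := by have := hf 4 4; linarith
  have h55 : f 5 5 = 0 := by have := hf 5 5; linarith
  simp only [Fin.sum_univ_succ, Finset.univ_eq_empty, Finset.sum_empty]
  simp [shp]
  simp only [pf, pf4, h10, h20, h21, h30, h31, h32, h40, h41, h42, h43, h50, h51, h52, h53, h54]
  ring

lemma shp_skew (f : Matrix (Fin 6) (Fin 6) ℝ) (i j : Fin 6) : shp f i j = - shp f j i := by
  fin_cases i <;> fin_cases j <;> simp [shp]

lemma shp_shp (f : Matrix (Fin 6) (Fin 6) ℝ) (hf : ∀ i j, f i j = - f j i) (i j : Fin 6) :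
    shp (shp f) i j = pf f * f i j := by
  have h10 : f 1 0 = - f 0 1 := hf 1 0
  have h20 : f 2 0 = - f 0 2 := hf 2 0
  have h21 : f 2 1 = - f 1 2 := hf 2 1
  have h30 : f 3 0 = - f 0 3 := hf 3 0
  have h31 : f 3 1 = - f 1 3 := hf 3 1
  have h32 : f 3 2 = - f 2 3 := hf 3 2
  have h40 : f 4 0 = - f 0 4 := hf 4 0
  have h41 : f 4 1 = - f 1 4 := hf 4 1
  have h42 : f 4 2 = - f 2 4 := hf 4 2
  have h43 : f 4 3 = - f 3 4 := hf 4 3
  have h50 : f 5 0 = - f 0 5 := hf 5 0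
  have h51 : f 5 1 = - f 1 5 := hf 5 1
  have h52 : f 5 2 = - f 2 5 := hf 5 2
  have h53 : f 5 3 = - f 3 5 := hf 5 3
  have h54 : f 5 4 = - f 4 5 := hf 5 4
  have h00 : f 0 0 = 0 := by have := hf 0 0; linarith
  have h11 : f 1 1 = 0 := by have := hf 1 1; linarith
  have h22 : f 2 2 = 0 := by have := hf 2 2; linarith
  have h33 : f 3 3 = 0 := by have := hf 3 3; linarith
  have h44 : f 4 4 = 0 := by have := hf 4 4; linarith
  have h55 : f 5 5 = 0 := by have := hf 5 5; linarith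
  fin_cases i <;> fin_cases j <;>
    simp [shp, pf4, pf, h00, h11, h22, h33, h44, h55, h10, h20, h21, h30, h31, h32, h40, h41, h42, h43, h50, h51, h52, h53, h54] <;> ring

lemma mul_shp (f : Matrix (Fin 6) (Fin 6) ℝ) (hf : ∀ i j, f i j = - f j i) (i j : Fin 6) :
    ∑ k, f i k * shp f k j = if i = j then - pf f else 0 := by
  have h10 : f 1 0 = - f 0 1 := hf 1 0
  have h20 : f 2 0 = - f 0 2 := hf 2 0
  have h21 : f 2 1 = - f 1 2 := hf 2 1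
  have h30 : f 3 0 = - f 0 3 := hf 3 0
  have h31 : f 3 1 = - f 1 3 := hf 3 1
  have h32 : f 3 2 = - f 2 3 := hf 3 2
  have h40 : f 4 0 = - f 0 4 := hf 4 0
  have h41 : f 4 1 = - f 1 4 := hf 4 1
  have h42 : f 4 2 = - f 2 4 := hf 4 2
  have h43 : f 4 3 = - f 3 4 := hf 4 3
  have h50 : f 5 0 = - f 0 5 := hf 5 0
  have h51 : f 5 1 = - f 1 5 := hf 5 1
  have h52 : f 5 2 = - f 2 5 := hf 5 2
  have h53 : f 5 3 = - f 3 5 := hf 5 3
  have h54 : f 5 4 = - f 4 5 := hf 5 4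
  have h00 : f 0 0 = 0 := by have := hf 0 0; linarith
  have h11 : f 1 1 = 0 := by have := hf 1 1; linarith
  have h22 : f 2 2 = 0 := by have := hf 2 2; linarith
  have h33 : f 3 3 = 0 := by have := hf 3 3; linarith
  have h44 : f 4 4 = 0 := by have := hf 4 4; linarith
  have h55 : f 5 5 = 0 := by have := hf 5 5; linarith
  fin_cases i <;> fin_cases j <;>
    simp [Fin.sum_univ_succ, shp, pf4, pf, h00, h11, h22, h33, h44, h55, h10, h20, h21, h30, h31, h32, h40, h41, h42, h43, h50, h51, h52, h53, h54] <;> ring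

lemma ker_aux01 (f : Matrix (Fin 6) (Fin 6) ℝ) (hf : ∀ i j, f i j = - f j i) (hne : f 0 1 ≠ 0)
    (p0123 : f 0 1 * f 2 3 - f 0 2 * f 1 3 + f 0 3 * f 1 2 = 0)
    (p0124 : f 0 1 * f 2 4 - f 0 2 * f 1 4 + f 0 4 * f 1 2 = 0)
    (p0125 : f 0 1 * f 2 5 - f 0 2 * f 1 5 + f 0 5 * f 1 2 = 0)
    (p0134 : f 0 1 * f 3 4 - f 0 3 * f 1 4 + f 0 4 * f 1 3 = 0)
    (p0135 : f 0 1 * f 3 5 - f 0 3 * f 1 5 + f 0 5 * f 1 3 = 0)
    (p0145 : f 0 1 * f 4 5 - f 0 4 * f 1 5 + f 0 5 * f 1 4 = 0)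
    (p0234 : f 0 2 * f 3 4 - f 0 3 * f 2 4 + f 0 4 * f 2 3 = 0)
    (p0235 : f 0 2 * f 3 5 - f 0 3 * f 2 5 + f 0 5 * f 2 3 = 0)
    (p0245 : f 0 2 * f 4 5 - f 0 4 * f 2 5 + f 0 5 * f 2 4 = 0)
    (p0345 : f 0 3 * f 4 5 - f 0 4 * f 3 5 + f 0 5 * f 3 4 = 0)
    (p1234 : f 1 2 * f 3 4 - f 1 3 * f 2 4 + f 1 4 * f 2 3 = 0)
    (p1235 : f 1 2 * f 3 5 - f 1 3 * f 2 5 + f 1 5 * f 2 3 = 0)
    (p1245 : f 1 2 * f 4 5 - f 1 4 * f 2 5 + f 1 5 * f 2 4 = 0)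
    (p1345 : f 1 3 * f 4 5 - f 1 4 * f 3 5 + f 1 5 * f 3 4 = 0)
    (p2345 : f 2 3 * f 4 5 - f 2 4 * f 3 5 + f 2 5 * f 3 4 = 0) :
    ∃ ν : Fin 6 → ℝ, ν ≠ 0 ∧ f.mulVec ν = 0 := by
  have h10 : f 1 0 = - f 0 1 := hf 1 0
  have h20 : f 2 0 = - f 0 2 := hf 2 0
  have h21 : f 2 1 = - f 1 2 := hf 2 1
  have h30 : f 3 0 = - f 0 3 := hf 3 0
  have h31 : f 3 1 = - f 1 3 := hf 3 1
  have h32 : f 3 2 = - f 2 3 := hf 3 2
  have h40 : f 4 0 = - f 0 4 := hf 4 0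
  have h41 : f 4 1 = - f 1 4 := hf 4 1
  have h42 : f 4 2 = - f 2 4 := hf 4 2
  have h43 : f 4 3 = - f 3 4 := hf 4 3
  have h50 : f 5 0 = - f 0 5 := hf 5 0
  have h51 : f 5 1 = - f 1 5 := hf 5 1
  have h52 : f 5 2 = - f 2 5 := hf 5 2
  have h53 : f 5 3 = - f 3 5 := hf 5 3
  have h54 : f 5 4 = - f 4 5 := hf 5 4
  have h00 : f 0 0 = 0 := by have := hf 0 0; linarith
  have h11 : f 1 1 = 0 := by have := hf 1 1; linarith
  have h22 : f 2 2 = 0 := by have := hf 2 2; linarith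
  have h33 : f 3 3 = 0 := by have := hf 3 3; linarith
  have h44 : f 4 4 = 0 := by have := hf 4 4; linarith
  have h55 : f 5 5 = 0 := by have := hf 5 5; linarith
  refine ⟨![f 1 2, -f 0 2, f 0 1, 0, 0, 0], fun h => hne (by simpa using congrFun h 2), ?_⟩
  funext m
  fin_cases m <;> simp only [Matrix.mulVec, dotProduct, Fin.sum_univ_succ, Finset.univ_eq_empty, Finset.sum_empty]
  · simp [h00, h11, h22, h33, h44, h55, h10, h20, h21, h30, h31, h32, h40, h41, h42, h43, h50, h51, h52, h53, h54]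
    try ring
  · simp [h00, h11, h22, h33, h44, h55, h10, h20, h21, h30, h31, h32, h40, h41, h42, h43, h50, h51, h52, h53, h54]
    try ring
  · simp [h00, h11, h22, h33, h44, h55, h10, h20, h21, h30, h31, h32, h40, h41, h42, h43, h50, h51, h52, h53, h54]
    try ring
  · simp [h00, h11, h22, h33, h44, h55, h10, h20, h21, h30, h31, h32, h40, h41, h42, h43, h50, h51, h52, h53, h54]
    linear_combination (-1) * p0123
  · simp [h00, h11, h22, h33, h44, h55, h10, h20, h21, h30, h31, h32, h40, h41, h42, h43, h50, h51, h52, h53, h54]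
    linear_combination (-1) * p0124
  · simp [h00, h11, h22, h33, h44, h55, h10, h20, h21, h30, h31, h32, h40, h41, h42, h43, h50, h51, h52, h53, h54]
    linear_combination (-1) * p0125

lemma ker_aux02 (f : Matrix (Fin 6) (Fin 6) ℝ) (hf : ∀ i j, f i j = - f j i) (hne : f 0 2 ≠ 0)
    (p0123 : f 0 1 * f 2 3 - f 0 2 * f 1 3 + f 0 3 * f 1 2 = 0)
    (p0124 : f 0 1 * f 2 4 - f 0 2 * f 1 4 + f 0 4 * f 1 2 = 0)
    (p0125 : f 0 1 * f 2 5 - f 0 2 * f 1 5 + f 0 5 * f 1 2 = 0)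
    (p0134 : f 0 1 * f 3 4 - f 0 3 * f 1 4 + f 0 4 * f 1 3 = 0)
    (p0135 : f 0 1 * f 3 5 - f 0 3 * f 1 5 + f 0 5 * f 1 3 = 0)
    (p0145 : f 0 1 * f 4 5 - f 0 4 * f 1 5 + f 0 5 * f 1 4 = 0)
    (p0234 : f 0 2 * f 3 4 - f 0 3 * f 2 4 + f 0 4 * f 2 3 = 0)
    (p0235 : f 0 2 * f 3 5 - f 0 3 * f 2 5 + f 0 5 * f 2 3 = 0)
    (p0245 : f 0 2 * f 4 5 - f 0 4 * f 2 5 + f 0 5 * f 2 4 = 0)
    (p0345 : f 0 3 * f 4 5 - f 0 4 * f 3 5 + f 0 5 * f 3 4 = 0)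
    (p1234 : f 1 2 * f 3 4 - f 1 3 * f 2 4 + f 1 4 * f 2 3 = 0)
    (p1235 : f 1 2 * f 3 5 - f 1 3 * f 2 5 + f 1 5 * f 2 3 = 0)
    (p1245 : f 1 2 * f 4 5 - f 1 4 * f 2 5 + f 1 5 * f 2 4 = 0)
    (p1345 : f 1 3 * f 4 5 - f 1 4 * f 3 5 + f 1 5 * f 3 4 = 0)
    (p2345 : f 2 3 * f 4 5 - f 2 4 * f 3 5 + f 2 5 * f 3 4 = 0) :
    ∃ ν : Fin 6 → ℝ, ν ≠ 0 ∧ f.mulVec ν = 0 := by
  have h10 : f 1 0 = - f 0 1 := hf 1 0
  have h20 : f 2 0 = - f 0 2 := hf 2 0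
  have h21 : f 2 1 = - f 1 2 := hf 2 1
  have h30 : f 3 0 = - f 0 3 := hf 3 0
  have h31 : f 3 1 = - f 1 3 := hf 3 1
  have h32 : f 3 2 = - f 2 3 := hf 3 2
  have h40 : f 4 0 = - f 0 4 := hf 4 0
  have h41 : f 4 1 = - f 1 4 := hf 4 1
  have h42 : f 4 2 = - f 2 4 := hf 4 2
  have h43 : f 4 3 = - f 3 4 := hf 4 3
  have h50 : f 5 0 = - f 0 5 := hf 5 0
  have h51 : f 5 1 = - f 1 5 := hf 5 1
  have h52 : f 5 2 = - f 2 5 := hf 5 2
  have h53 : f 5 3 = - f 3 5 := hf 5 3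
  have h54 : f 5 4 = - f 4 5 := hf 5 4
  have h00 : f 0 0 = 0 := by have := hf 0 0; linarith
  have h11 : f 1 1 = 0 := by have := hf 1 1; linarith
  have h22 : f 2 2 = 0 := by have := hf 2 2; linarith
  have h33 : f 3 3 = 0 := by have := hf 3 3; linarith
  have h44 : f 4 4 = 0 := by have := hf 4 4; linarith
  have h55 : f 5 5 = 0 := by have := hf 5 5; linarith
  refine ⟨![-f 1 2, f 0 2, -f 0 1, 0, 0, 0], fun h => hne (by simpa using congrFun h 1), ?_⟩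
  funext m
  fin_cases m <;> simp only [Matrix.mulVec, dotProduct, Fin.sum_univ_succ, Finset.univ_eq_empty, Finset.sum_empty]
  · simp [h00, h11, h22, h33, h44, h55, h10, h20, h21, h30, h31, h32, h40, h41, h42, h43, h50, h51, h52, h53, h54]
    try ring
  · simp [h00, h11, h22, h33, h44, h55, h10, h20, h21, h30, h31, h32, h40, h41, h42, h43, h50, h51, h52, h53, h54]
    try ring
  · simp [h00, h11, h22, h33, h44, h55, h10, h20, h21, h30, h31, h32, h40, h41, h42, h43, h50, h51, h52, h53, h54]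
    try ring
  · simp [h00, h11, h22, h33, h44, h55, h10, h20, h21, h30, h31, h32, h40, h41, h42, h43, h50, h51, h52, h53, h54]
    linear_combination (1) * p0123
  · simp [h00, h11, h22, h33, h44, h55, h10, h20, h21, h30, h31, h32, h40, h41, h42, h43, h50, h51, h52, h53, h54]
    linear_combination (1) * p0124
  · simp [h00, h11, h22, h33, h44, h55, h10, h20, h21, h30, h31, h32, h40, h41, h42, h43, h50, h51, h52, h53, h54]
    linear_combination (1) * p0125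

lemma ker_aux03 (f : Matrix (Fin 6) (Fin 6) ℝ) (hf : ∀ i j, f i j = - f j i) (hne : f 0 3 ≠ 0)
    (p0123 : f 0 1 * f 2 3 - f 0 2 * f 1 3 + f 0 3 * f 1 2 = 0)
    (p0124 : f 0 1 * f 2 4 - f 0 2 * f 1 4 + f 0 4 * f 1 2 = 0)
    (p0125 : f 0 1 * f 2 5 - f 0 2 * f 1 5 + f 0 5 * f 1 2 = 0)
    (p0134 : f 0 1 * f 3 4 - f 0 3 * f 1 4 + f 0 4 * f 1 3 = 0)
    (p0135 : f 0 1 * f 3 5 - f 0 3 * f 1 5 + f 0 5 * f 1 3 = 0)
    (p0145 : f 0 1 * f 4 5 - f 0 4 * f 1 5 + f 0 5 * f 1 4 = 0)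
    (p0234 : f 0 2 * f 3 4 - f 0 3 * f 2 4 + f 0 4 * f 2 3 = 0)
    (p0235 : f 0 2 * f 3 5 - f 0 3 * f 2 5 + f 0 5 * f 2 3 = 0)
    (p0245 : f 0 2 * f 4 5 - f 0 4 * f 2 5 + f 0 5 * f 2 4 = 0)
    (p0345 : f 0 3 * f 4 5 - f 0 4 * f 3 5 + f 0 5 * f 3 4 = 0)
    (p1234 : f 1 2 * f 3 4 - f 1 3 * f 2 4 + f 1 4 * f 2 3 = 0)
    (p1235 : f 1 2 * f 3 5 - f 1 3 * f 2 5 + f 1 5 * f 2 3 = 0)
    (p1245 : f 1 2 * f 4 5 - f 1 4 * f 2 5 + f 1 5 * f 2 4 = 0)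
    (p1345 : f 1 3 * f 4 5 - f 1 4 * f 3 5 + f 1 5 * f 3 4 = 0)
    (p2345 : f 2 3 * f 4 5 - f 2 4 * f 3 5 + f 2 5 * f 3 4 = 0) :
    ∃ ν : Fin 6 → ℝ, ν ≠ 0 ∧ f.mulVec ν = 0 := by
  have h10 : f 1 0 = - f 0 1 := hf 1 0
  have h20 : f 2 0 = - f 0 2 := hf 2 0
  have h21 : f 2 1 = - f 1 2 := hf 2 1
  have h30 : f 3 0 = - f 0 3 := hf 3 0
  have h31 : f 3 1 = - f 1 3 := hf 3 1
  have h32 : f 3 2 = - f 2 3 := hf 3 2
  have h40 : f 4 0 = - f 0 4 := hf 4 0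
  have h41 : f 4 1 = - f 1 4 := hf 4 1
  have h42 : f 4 2 = - f 2 4 := hf 4 2
  have h43 : f 4 3 = - f 3 4 := hf 4 3
  have h50 : f 5 0 = - f 0 5 := hf 5 0
  have h51 : f 5 1 = - f 1 5 := hf 5 1
  have h52 : f 5 2 = - f 2 5 := hf 5 2
  have h53 : f 5 3 = - f 3 5 := hf 5 3
  have h54 : f 5 4 = - f 4 5 := hf 5 4
  have h00 : f 0 0 = 0 := by have := hf 0 0; linarith
  have h11 : f 1 1 = 0 := by have := hf 1 1; linarith
  have h22 : f 2 2 = 0 := by have := hf 2 2; linarith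
  have h33 : f 3 3 = 0 := by have := hf 3 3; linarith
  have h44 : f 4 4 = 0 := by have := hf 4 4; linarith
  have h55 : f 5 5 = 0 := by have := hf 5 5; linarith
  refine ⟨![-f 1 3, f 0 3, 0, -f 0 1, 0, 0], fun h => hne (by simpa using congrFun h 1), ?_⟩
  funext m
  fin_cases m <;> simp only [Matrix.mulVec, dotProduct, Fin.sum_univ_succ, Finset.univ_eq_empty, Finset.sum_empty]
  · simp [h00, h11, h22, h33, h44, h55, h10, h20, h21, h30, h31, h32, h40, h41, h42, h43, h50, h51, h52, h53, h54]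
    try ring
  · simp [h00, h11, h22, h33, h44, h55, h10, h20, h21, h30, h31, h32, h40, h41, h42, h43, h50, h51, h52, h53, h54]
    try ring
  · simp [h00, h11, h22, h33, h44, h55, h10, h20, h21, h30, h31, h32, h40, h41, h42, h43, h50, h51, h52, h53, h54]
    linear_combination (-1) * p0123
  · simp [h00, h11, h22, h33, h44, h55, h10, h20, h21, h30, h31, h32, h40, h41, h42, h43, h50, h51, h52, h53, h54]
    try ring
  · simp [h00, h11, h22, h33, h44, h55, h10, h20, h21, h30, h31, h32, h40, h41, h42, h43, h50, h51, h52, h53, h54]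
    linear_combination (1) * p0134
  · simp [h00, h11, h22, h33, h44, h55, h10, h20, h21, h30, h31, h32, h40, h41, h42, h43, h50, h51, h52, h53, h54]
    linear_combination (1) * p0135

lemma ker_aux04 (f : Matrix (Fin 6) (Fin 6) ℝ) (hf : ∀ i j, f i j = - f j i) (hne : f 0 4 ≠ 0)
    (p0123 : f 0 1 * f 2 3 - f 0 2 * f 1 3 + f 0 3 * f 1 2 = 0)
    (p0124 : f 0 1 * f 2 4 - f 0 2 * f 1 4 + f 0 4 * f 1 2 = 0)
    (p0125 : f 0 1 * f 2 5 - f 0 2 * f 1 5 + f 0 5 * f 1 2 = 0)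
    (p0134 : f 0 1 * f 3 4 - f 0 3 * f 1 4 + f 0 4 * f 1 3 = 0)
    (p0135 : f 0 1 * f 3 5 - f 0 3 * f 1 5 + f 0 5 * f 1 3 = 0)
    (p0145 : f 0 1 * f 4 5 - f 0 4 * f 1 5 + f 0 5 * f 1 4 = 0)
    (p0234 : f 0 2 * f 3 4 - f 0 3 * f 2 4 + f 0 4 * f 2 3 = 0)
    (p0235 : f 0 2 * f 3 5 - f 0 3 * f 2 5 + f 0 5 * f 2 3 = 0)
    (p0245 : f 0 2 * f 4 5 - f 0 4 * f 2 5 + f 0 5 * f 2 4 = 0)
    (p0345 : f 0 3 * f 4 5 - f 0 4 * f 3 5 + f 0 5 * f 3 4 = 0)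
    (p1234 : f 1 2 * f 3 4 - f 1 3 * f 2 4 + f 1 4 * f 2 3 = 0)
    (p1235 : f 1 2 * f 3 5 - f 1 3 * f 2 5 + f 1 5 * f 2 3 = 0)
    (p1245 : f 1 2 * f 4 5 - f 1 4 * f 2 5 + f 1 5 * f 2 4 = 0)
    (p1345 : f 1 3 * f 4 5 - f 1 4 * f 3 5 + f 1 5 * f 3 4 = 0)
    (p2345 : f 2 3 * f 4 5 - f 2 4 * f 3 5 + f 2 5 * f 3 4 = 0) :
    ∃ ν : Fin 6 → ℝ, ν ≠ 0 ∧ f.mulVec ν = 0 := by
  have h10 : f 1 0 = - f 0 1 := hf 1 0
  have h20 : f 2 0 = - f 0 2 := hf 2 0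
  have h21 : f 2 1 = - f 1 2 := hf 2 1
  have h30 : f 3 0 = - f 0 3 := hf 3 0
  have h31 : f 3 1 = - f 1 3 := hf 3 1
  have h32 : f 3 2 = - f 2 3 := hf 3 2
  have h40 : f 4 0 = - f 0 4 := hf 4 0
  have h41 : f 4 1 = - f 1 4 := hf 4 1
  have h42 : f 4 2 = - f 2 4 := hf 4 2
  have h43 : f 4 3 = - f 3 4 := hf 4 3
  have h50 : f 5 0 = - f 0 5 := hf 5 0
  have h51 : f 5 1 = - f 1 5 := hf 5 1
  have h52 : f 5 2 = - f 2 5 := hf 5 2
  have h53 : f 5 3 = - f 3 5 := hf 5 3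
  have h54 : f 5 4 = - f 4 5 := hf 5 4
  have h00 : f 0 0 = 0 := by have := hf 0 0; linarith
  have h11 : f 1 1 = 0 := by have := hf 1 1; linarith
  have h22 : f 2 2 = 0 := by have := hf 2 2; linarith
  have h33 : f 3 3 = 0 := by have := hf 3 3; linarith
  have h44 : f 4 4 = 0 := by have := hf 4 4; linarith
  have h55 : f 5 5 = 0 := by have := hf 5 5; linarith
  refine ⟨![-f 1 4, f 0 4, 0, 0, -f 0 1, 0], fun h => hne (by simpa using congrFun h 1), ?_⟩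
  funext m
  fin_cases m <;> simp only [Matrix.mulVec, dotProduct, Fin.sum_univ_succ, Finset.univ_eq_empty, Finset.sum_empty]
  · simp [h00, h11, h22, h33, h44, h55, h10, h20, h21, h30, h31, h32, h40, h41, h42, h43, h50, h51, h52, h53, h54]
    try ring
  · simp [h00, h11, h22, h33, h44, h55, h10, h20, h21, h30, h31, h32, h40, h41, h42, h43, h50, h51, h52, h53, h54]
    try ring
  · simp [h00, h11, h22, h33, h44, h55, h10, h20, h21, h30, h31, h32, h40, h41, h42, h43, h50, h51, h52, h53, h54]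
    linear_combination (-1) * p0124
  · simp [h00, h11, h22, h33, h44, h55, h10, h20, h21, h30, h31, h32, h40, h41, h42, h43, h50, h51, h52, h53, h54]
    linear_combination (-1) * p0134
  · simp [h00, h11, h22, h33, h44, h55, h10, h20, h21, h30, h31, h32, h40, h41, h42, h43, h50, h51, h52, h53, h54]
    try ring
  · simp [h00, h11, h22, h33, h44, h55, h10, h20, h21, h30, h31, h32, h40, h41, h42, h43, h50, h51, h52, h53, h54]
    linear_combination (1) * p0145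

lemma ker_aux05 (f : Matrix (Fin 6) (Fin 6) ℝ) (hf : ∀ i j, f i j = - f j i) (hne : f 0 5 ≠ 0)
    (p0123 : f 0 1 * f 2 3 - f 0 2 * f 1 3 + f 0 3 * f 1 2 = 0)
    (p0124 : f 0 1 * f 2 4 - f 0 2 * f 1 4 + f 0 4 * f 1 2 = 0)
    (p0125 : f 0 1 * f 2 5 - f 0 2 * f 1 5 + f 0 5 * f 1 2 = 0)
    (p0134 : f 0 1 * f 3 4 - f 0 3 * f 1 4 + f 0 4 * f 1 3 = 0)
    (p0135 : f 0 1 * f 3 5 - f 0 3 * f 1 5 + f 0 5 * f 1 3 = 0)
    (p0145 : f 0 1 * f 4 5 - f 0 4 * f 1 5 + f 0 5 * f 1 4 = 0)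
    (p0234 : f 0 2 * f 3 4 - f 0 3 * f 2 4 + f 0 4 * f 2 3 = 0)
    (p0235 : f 0 2 * f 3 5 - f 0 3 * f 2 5 + f 0 5 * f 2 3 = 0)
    (p0245 : f 0 2 * f 4 5 - f 0 4 * f 2 5 + f 0 5 * f 2 4 = 0)
    (p0345 : f 0 3 * f 4 5 - f 0 4 * f 3 5 + f 0 5 * f 3 4 = 0)
    (p1234 : f 1 2 * f 3 4 - f 1 3 * f 2 4 + f 1 4 * f 2 3 = 0)
    (p1235 : f 1 2 * f 3 5 - f 1 3 * f 2 5 + f 1 5 * f 2 3 = 0)
    (p1245 : f 1 2 * f 4 5 - f 1 4 * f 2 5 + f 1 5 * f 2 4 = 0)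
    (p1345 : f 1 3 * f 4 5 - f 1 4 * f 3 5 + f 1 5 * f 3 4 = 0)
    (p2345 : f 2 3 * f 4 5 - f 2 4 * f 3 5 + f 2 5 * f 3 4 = 0) :
    ∃ ν : Fin 6 → ℝ, ν ≠ 0 ∧ f.mulVec ν = 0 := by
  have h10 : f 1 0 = - f 0 1 := hf 1 0
  have h20 : f 2 0 = - f 0 2 := hf 2 0
  have h21 : f 2 1 = - f 1 2 := hf 2 1
  have h30 : f 3 0 = - f 0 3 := hf 3 0
  have h31 : f 3 1 = - f 1 3 := hf 3 1
  have h32 : f 3 2 = - f 2 3 := hf 3 2
  have h40 : f 4 0 = - f 0 4 := hf 4 0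
  have h41 : f 4 1 = - f 1 4 := hf 4 1
  have h42 : f 4 2 = - f 2 4 := hf 4 2
  have h43 : f 4 3 = - f 3 4 := hf 4 3
  have h50 : f 5 0 = - f 0 5 := hf 5 0
  have h51 : f 5 1 = - f 1 5 := hf 5 1
  have h52 : f 5 2 = - f 2 5 := hf 5 2
  have h53 : f 5 3 = - f 3 5 := hf 5 3
  have h54 : f 5 4 = - f 4 5 := hf 5 4
  have h00 : f 0 0 = 0 := by have := hf 0 0; linarith
  have h11 : f 1 1 = 0 := by have := hf 1 1; linarith
  have h22 : f 2 2 = 0 := by have := hf 2 2; linarith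
  have h33 : f 3 3 = 0 := by have := hf 3 3; linarith
  have h44 : f 4 4 = 0 := by have := hf 4 4; linarith
  have h55 : f 5 5 = 0 := by have := hf 5 5; linarith
  refine ⟨![-f 1 5, f 0 5, 0, 0, 0, -f 0 1], fun h => hne (by simpa using congrFun h 1), ?_⟩
  funext m
  fin_cases m <;> simp only [Matrix.mulVec, dotProduct, Fin.sum_univ_succ, Finset.univ_eq_empty, Finset.sum_empty]
  · simp [h00, h11, h22, h33, h44, h55, h10, h20, h21, h30, h31, h32, h40, h41, h42, h43, h50, h51, h52, h53, h54]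
    try ring
  · simp [h00, h11, h22, h33, h44, h55, h10, h20, h21, h30, h31, h32, h40, h41, h42, h43, h50, h51, h52, h53, h54]
    try ring
  · simp [h00, h11, h22, h33, h44, h55, h10, h20, h21, h30, h31, h32, h40, h41, h42, h43, h50, h51, h52, h53, h54]
    linear_combination (-1) * p0125
  · simp [h00, h11, h22, h33, h44, h55, h10, h20, h21, h30, h31, h32, h40, h41, h42, h43, h50, h51, h52, h53, h54]
    linear_combination (-1) * p0135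
  · simp [h00, h11, h22, h33, h44, h55, h10, h20, h21, h30, h31, h32, h40, h41, h42, h43, h50, h51, h52, h53, h54]
    linear_combination (-1) * p0145
  · simp [h00, h11, h22, h33, h44, h55, h10, h20, h21, h30, h31, h32, h40, h41, h42, h43, h50, h51, h52, h53, h54]
    try ring

lemma ker_aux12 (f : Matrix (Fin 6) (Fin 6) ℝ) (hf : ∀ i j, f i j = - f j i) (hne : f 1 2 ≠ 0)
    (p0123 : f 0 1 * f 2 3 - f 0 2 * f 1 3 + f 0 3 * f 1 2 = 0)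
    (p0124 : f 0 1 * f 2 4 - f 0 2 * f 1 4 + f 0 4 * f 1 2 = 0)
    (p0125 : f 0 1 * f 2 5 - f 0 2 * f 1 5 + f 0 5 * f 1 2 = 0)
    (p0134 : f 0 1 * f 3 4 - f 0 3 * f 1 4 + f 0 4 * f 1 3 = 0)
    (p0135 : f 0 1 * f 3 5 - f 0 3 * f 1 5 + f 0 5 * f 1 3 = 0)
    (p0145 : f 0 1 * f 4 5 - f 0 4 * f 1 5 + f 0 5 * f 1 4 = 0)
    (p0234 : f 0 2 * f 3 4 - f 0 3 * f 2 4 + f 0 4 * f 2 3 = 0)
    (p0235 : f 0 2 * f 3 5 - f 0 3 * f 2 5 + f 0 5 * f 2 3 = 0)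
    (p0245 : f 0 2 * f 4 5 - f 0 4 * f 2 5 + f 0 5 * f 2 4 = 0)
    (p0345 : f 0 3 * f 4 5 - f 0 4 * f 3 5 + f 0 5 * f 3 4 = 0)
    (p1234 : f 1 2 * f 3 4 - f 1 3 * f 2 4 + f 1 4 * f 2 3 = 0)
    (p1235 : f 1 2 * f 3 5 - f 1 3 * f 2 5 + f 1 5 * f 2 3 = 0)
    (p1245 : f 1 2 * f 4 5 - f 1 4 * f 2 5 + f 1 5 * f 2 4 = 0)
    (p1345 : f 1 3 * f 4 5 - f 1 4 * f 3 5 + f 1 5 * f 3 4 = 0)
    (p2345 : f 2 3 * f 4 5 - f 2 4 * f 3 5 + f 2 5 * f 3 4 = 0) :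
    ∃ ν : Fin 6 → ℝ, ν ≠ 0 ∧ f.mulVec ν = 0 := by
  have h10 : f 1 0 = - f 0 1 := hf 1 0
  have h20 : f 2 0 = - f 0 2 := hf 2 0
  have h21 : f 2 1 = - f 1 2 := hf 2 1
  have h30 : f 3 0 = - f 0 3 := hf 3 0
  have h31 : f 3 1 = - f 1 3 := hf 3 1
  have h32 : f 3 2 = - f 2 3 := hf 3 2
  have h40 : f 4 0 = - f 0 4 := hf 4 0
  have h41 : f 4 1 = - f 1 4 := hf 4 1
  have h42 : f 4 2 = - f 2 4 := hf 4 2
  have h43 : f 4 3 = - f 3 4 := hf 4 3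
  have h50 : f 5 0 = - f 0 5 := hf 5 0
  have h51 : f 5 1 = - f 1 5 := hf 5 1
  have h52 : f 5 2 = - f 2 5 := hf 5 2
  have h53 : f 5 3 = - f 3 5 := hf 5 3
  have h54 : f 5 4 = - f 4 5 := hf 5 4
  have h00 : f 0 0 = 0 := by have := hf 0 0; linarith
  have h11 : f 1 1 = 0 := by have := hf 1 1; linarith
  have h22 : f 2 2 = 0 := by have := hf 2 2; linarith
  have h33 : f 3 3 = 0 := by have := hf 3 3; linarith
  have h44 : f 4 4 = 0 := by have := hf 4 4; linarith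
  have h55 : f 5 5 = 0 := by have := hf 5 5; linarith
  refine ⟨![f 1 2, -f 0 2, f 0 1, 0, 0, 0], fun h => hne (by simpa using congrFun h 0), ?_⟩
  funext m
  fin_cases m <;> simp only [Matrix.mulVec, dotProduct, Fin.sum_univ_succ, Finset.univ_eq_empty, Finset.sum_empty]
  · simp [h00, h11, h22, h33, h44, h55, h10, h20, h21, h30, h31, h32, h40, h41, h42, h43, h50, h51, h52, h53, h54]
    try ring
  · simp [h00, h11, h22, h33, h44, h55, h10, h20, h21, h30, h31, h32, h40, h41, h42, h43, h50, h51, h52, h53, h54]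
    try ring
  · simp [h00, h11, h22, h33, h44, h55, h10, h20, h21, h30, h31, h32, h40, h41, h42, h43, h50, h51, h52, h53, h54]
    try ring
  · simp [h00, h11, h22, h33, h44, h55, h10, h20, h21, h30, h31, h32, h40, h41, h42, h43, h50, h51, h52, h53, h54]
    linear_combination (-1) * p0123
  · simp [h00, h11, h22, h33, h44, h55, h10, h20, h21, h30, h31, h32, h40, h41, h42, h43, h50, h51, h52, h53, h54]
    linear_combination (-1) * p0124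
  · simp [h00, h11, h22, h33, h44, h55, h10, h20, h21, h30, h31, h32, h40, h41, h42, h43, h50, h51, h52, h53, h54]
    linear_combination (-1) * p0125

lemma ker_aux13 (f : Matrix (Fin 6) (Fin 6) ℝ) (hf : ∀ i j, f i j = - f j i) (hne : f 1 3 ≠ 0)
    (p0123 : f 0 1 * f 2 3 - f 0 2 * f 1 3 + f 0 3 * f 1 2 = 0)
    (p0124 : f 0 1 * f 2 4 - f 0 2 * f 1 4 + f 0 4 * f 1 2 = 0)
    (p0125 : f 0 1 * f 2 5 - f 0 2 * f 1 5 + f 0 5 * f 1 2 = 0)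
    (p0134 : f 0 1 * f 3 4 - f 0 3 * f 1 4 + f 0 4 * f 1 3 = 0)
    (p0135 : f 0 1 * f 3 5 - f 0 3 * f 1 5 + f 0 5 * f 1 3 = 0)
    (p0145 : f 0 1 * f 4 5 - f 0 4 * f 1 5 + f 0 5 * f 1 4 = 0)
    (p0234 : f 0 2 * f 3 4 - f 0 3 * f 2 4 + f 0 4 * f 2 3 = 0)
    (p0235 : f 0 2 * f 3 5 - f 0 3 * f 2 5 + f 0 5 * f 2 3 = 0)
    (p0245 : f 0 2 * f 4 5 - f 0 4 * f 2 5 + f 0 5 * f 2 4 = 0)
    (p0345 : f 0 3 * f 4 5 - f 0 4 * f 3 5 + f 0 5 * f 3 4 = 0)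
    (p1234 : f 1 2 * f 3 4 - f 1 3 * f 2 4 + f 1 4 * f 2 3 = 0)
    (p1235 : f 1 2 * f 3 5 - f 1 3 * f 2 5 + f 1 5 * f 2 3 = 0)
    (p1245 : f 1 2 * f 4 5 - f 1 4 * f 2 5 + f 1 5 * f 2 4 = 0)
    (p1345 : f 1 3 * f 4 5 - f 1 4 * f 3 5 + f 1 5 * f 3 4 = 0)
    (p2345 : f 2 3 * f 4 5 - f 2 4 * f 3 5 + f 2 5 * f 3 4 = 0) :
    ∃ ν : Fin 6 → ℝ, ν ≠ 0 ∧ f.mulVec ν = 0 := by
  have h10 : f 1 0 = - f 0 1 := hf 1 0
  have h20 : f 2 0 = - f 0 2 := hf 2 0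
  have h21 : f 2 1 = - f 1 2 := hf 2 1
  have h30 : f 3 0 = - f 0 3 := hf 3 0
  have h31 : f 3 1 = - f 1 3 := hf 3 1
  have h32 : f 3 2 = - f 2 3 := hf 3 2
  have h40 : f 4 0 = - f 0 4 := hf 4 0
  have h41 : f 4 1 = - f 1 4 := hf 4 1
  have h42 : f 4 2 = - f 2 4 := hf 4 2
  have h43 : f 4 3 = - f 3 4 := hf 4 3
  have h50 : f 5 0 = - f 0 5 := hf 5 0
  have h51 : f 5 1 = - f 1 5 := hf 5 1
  have h52 : f 5 2 = - f 2 5 := hf 5 2
  have h53 : f 5 3 = - f 3 5 := hf 5 3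
  have h54 : f 5 4 = - f 4 5 := hf 5 4
  have h00 : f 0 0 = 0 := by have := hf 0 0; linarith
  have h11 : f 1 1 = 0 := by have := hf 1 1; linarith
  have h22 : f 2 2 = 0 := by have := hf 2 2; linarith
  have h33 : f 3 3 = 0 := by have := hf 3 3; linarith
  have h44 : f 4 4 = 0 := by have := hf 4 4; linarith
  have h55 : f 5 5 = 0 := by have := hf 5 5; linarith
  refine ⟨![f 1 3, -f 0 3, 0, f 0 1, 0, 0], fun h => hne (by simpa using congrFun h 0), ?_⟩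
  funext m
  fin_cases m <;> simp only [Matrix.mulVec, dotProduct, Fin.sum_univ_succ, Finset.univ_eq_empty, Finset.sum_empty]
  · simp [h00, h11, h22, h33, h44, h55, h10, h20, h21, h30, h31, h32, h40, h41, h42, h43, h50, h51, h52, h53, h54]
    try ring
  · simp [h00, h11, h22, h33, h44, h55, h10, h20, h21, h30, h31, h32, h40, h41, h42, h43, h50, h51, h52, h53, h54]
    try ring
  · simp [h00, h11, h22, h33, h44, h55, h10, h20, h21, h30, h31, h32, h40, h41, h42, h43, h50, h51, h52, h53, h54]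
    linear_combination (1) * p0123
  · simp [h00, h11, h22, h33, h44, h55, h10, h20, h21, h30, h31, h32, h40, h41, h42, h43, h50, h51, h52, h53, h54]
    try ring
  · simp [h00, h11, h22, h33, h44, h55, h10, h20, h21, h30, h31, h32, h40, h41, h42, h43, h50, h51, h52, h53, h54]
    linear_combination (-1) * p0134
  · simp [h00, h11, h22, h33, h44, h55, h10, h20, h21, h30, h31, h32, h40, h41, h42, h43, h50, h51, h52, h53, h54]
    linear_combination (-1) * p0135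

lemma ker_aux14 (f : Matrix (Fin 6) (Fin 6) ℝ) (hf : ∀ i j, f i j = - f j i) (hne : f 1 4 ≠ 0)
    (p0123 : f 0 1 * f 2 3 - f 0 2 * f 1 3 + f 0 3 * f 1 2 = 0)
    (p0124 : f 0 1 * f 2 4 - f 0 2 * f 1 4 + f 0 4 * f 1 2 = 0)
    (p0125 : f 0 1 * f 2 5 - f 0 2 * f 1 5 + f 0 5 * f 1 2 = 0)
    (p0134 : f 0 1 * f 3 4 - f 0 3 * f 1 4 + f 0 4 * f 1 3 = 0)
    (p0135 : f 0 1 * f 3 5 - f 0 3 * f 1 5 + f 0 5 * f 1 3 = 0)
    (p0145 : f 0 1 * f 4 5 - f 0 4 * f 1 5 + f 0 5 * f 1 4 = 0)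
    (p0234 : f 0 2 * f 3 4 - f 0 3 * f 2 4 + f 0 4 * f 2 3 = 0)
    (p0235 : f 0 2 * f 3 5 - f 0 3 * f 2 5 + f 0 5 * f 2 3 = 0)
    (p0245 : f 0 2 * f 4 5 - f 0 4 * f 2 5 + f 0 5 * f 2 4 = 0)
    (p0345 : f 0 3 * f 4 5 - f 0 4 * f 3 5 + f 0 5 * f 3 4 = 0)
    (p1234 : f 1 2 * f 3 4 - f 1 3 * f 2 4 + f 1 4 * f 2 3 = 0)
    (p1235 : f 1 2 * f 3 5 - f 1 3 * f 2 5 + f 1 5 * f 2 3 = 0)
    (p1245 : f 1 2 * f 4 5 - f 1 4 * f 2 5 + f 1 5 * f 2 4 = 0)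
    (p1345 : f 1 3 * f 4 5 - f 1 4 * f 3 5 + f 1 5 * f 3 4 = 0)
    (p2345 : f 2 3 * f 4 5 - f 2 4 * f 3 5 + f 2 5 * f 3 4 = 0) :
    ∃ ν : Fin 6 → ℝ, ν ≠ 0 ∧ f.mulVec ν = 0 := by
  have h10 : f 1 0 = - f 0 1 := hf 1 0
  have h20 : f 2 0 = - f 0 2 := hf 2 0
  have h21 : f 2 1 = - f 1 2 := hf 2 1
  have h30 : f 3 0 = - f 0 3 := hf 3 0
  have h31 : f 3 1 = - f 1 3 := hf 3 1
  have h32 : f 3 2 = - f 2 3 := hf 3 2
  have h40 : f 4 0 = - f 0 4 := hf 4 0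
  have h41 : f 4 1 = - f 1 4 := hf 4 1
  have h42 : f 4 2 = - f 2 4 := hf 4 2
  have h43 : f 4 3 = - f 3 4 := hf 4 3
  have h50 : f 5 0 = - f 0 5 := hf 5 0
  have h51 : f 5 1 = - f 1 5 := hf 5 1
  have h52 : f 5 2 = - f 2 5 := hf 5 2
  have h53 : f 5 3 = - f 3 5 := hf 5 3
  have h54 : f 5 4 = - f 4 5 := hf 5 4
  have h00 : f 0 0 = 0 := by have := hf 0 0; linarith
  have h11 : f 1 1 = 0 := by have := hf 1 1; linarith
  have h22 : f 2 2 = 0 := by have := hf 2 2; linarith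
  have h33 : f 3 3 = 0 := by have := hf 3 3; linarith
  have h44 : f 4 4 = 0 := by have := hf 4 4; linarith
  have h55 : f 5 5 = 0 := by have := hf 5 5; linarith
  refine ⟨![f 1 4, -f 0 4, 0, 0, f 0 1, 0], fun h => hne (by simpa using congrFun h 0), ?_⟩
  funext m
  fin_cases m <;> simp only [Matrix.mulVec, dotProduct, Fin.sum_univ_succ, Finset.univ_eq_empty, Finset.sum_empty]
  · simp [h00, h11, h22, h33, h44, h55, h10, h20, h21, h30, h31, h32, h40, h41, h42, h43, h50, h51, h52, h53, h54]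
    try ring
  · simp [h00, h11, h22, h33, h44, h55, h10, h20, h21, h30, h31, h32, h40, h41, h42, h43, h50, h51, h52, h53, h54]
    try ring
  · simp [h00, h11, h22, h33, h44, h55, h10, h20, h21, h30, h31, h32, h40, h41, h42, h43, h50, h51, h52, h53, h54]
    linear_combination (1) * p0124
  · simp [h00, h11, h22, h33, h44, h55, h10, h20, h21, h30, h31, h32, h40, h41, h42, h43, h50, h51, h52, h53, h54]
    linear_combination (1) * p0134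
  · simp [h00, h11, h22, h33, h44, h55, h10, h20, h21, h30, h31, h32, h40, h41, h42, h43, h50, h51, h52, h53, h54]
    try ring
  · simp [h00, h11, h22, h33, h44, h55, h10, h20, h21, h30, h31, h32, h40, h41, h42, h43, h50, h51, h52, h53, h54]
    linear_combination (-1) * p0145

lemma ker_aux15 (f : Matrix (Fin 6) (Fin 6) ℝ) (hf : ∀ i j, f i j = - f j i) (hne : f 1 5 ≠ 0)
    (p0123 : f 0 1 * f 2 3 - f 0 2 * f 1 3 + f 0 3 * f 1 2 = 0)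
    (p0124 : f 0 1 * f 2 4 - f 0 2 * f 1 4 + f 0 4 * f 1 2 = 0)
    (p0125 : f 0 1 * f 2 5 - f 0 2 * f 1 5 + f 0 5 * f 1 2 = 0)
    (p0134 : f 0 1 * f 3 4 - f 0 3 * f 1 4 + f 0 4 * f 1 3 = 0)
    (p0135 : f 0 1 * f 3 5 - f 0 3 * f 1 5 + f 0 5 * f 1 3 = 0)
    (p0145 : f 0 1 * f 4 5 - f 0 4 * f 1 5 + f 0 5 * f 1 4 = 0)
    (p0234 : f 0 2 * f 3 4 - f 0 3 * f 2 4 + f 0 4 * f 2 3 = 0)
    (p0235 : f 0 2 * f 3 5 - f 0 3 * f 2 5 + f 0 5 * f 2 3 = 0)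
    (p0245 : f 0 2 * f 4 5 - f 0 4 * f 2 5 + f 0 5 * f 2 4 = 0)
    (p0345 : f 0 3 * f 4 5 - f 0 4 * f 3 5 + f 0 5 * f 3 4 = 0)
    (p1234 : f 1 2 * f 3 4 - f 1 3 * f 2 4 + f 1 4 * f 2 3 = 0)
    (p1235 : f 1 2 * f 3 5 - f 1 3 * f 2 5 + f 1 5 * f 2 3 = 0)
    (p1245 : f 1 2 * f 4 5 - f 1 4 * f 2 5 + f 1 5 * f 2 4 = 0)
    (p1345 : f 1 3 * f 4 5 - f 1 4 * f 3 5 + f 1 5 * f 3 4 = 0)
    (p2345 : f 2 3 * f 4 5 - f 2 4 * f 3 5 + f 2 5 * f 3 4 = 0) :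
    ∃ ν : Fin 6 → ℝ, ν ≠ 0 ∧ f.mulVec ν = 0 := by
  have h10 : f 1 0 = - f 0 1 := hf 1 0
  have h20 : f 2 0 = - f 0 2 := hf 2 0
  have h21 : f 2 1 = - f 1 2 := hf 2 1
  have h30 : f 3 0 = - f 0 3 := hf 3 0
  have h31 : f 3 1 = - f 1 3 := hf 3 1
  have h32 : f 3 2 = - f 2 3 := hf 3 2
  have h40 : f 4 0 = - f 0 4 := hf 4 0
  have h41 : f 4 1 = - f 1 4 := hf 4 1
  have h42 : f 4 2 = - f 2 4 := hf 4 2
  have h43 : f 4 3 = - f 3 4 := hf 4 3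
  have h50 : f 5 0 = - f 0 5 := hf 5 0
  have h51 : f 5 1 = - f 1 5 := hf 5 1
  have h52 : f 5 2 = - f 2 5 := hf 5 2
  have h53 : f 5 3 = - f 3 5 := hf 5 3
  have h54 : f 5 4 = - f 4 5 := hf 5 4
  have h00 : f 0 0 = 0 := by have := hf 0 0; linarith
  have h11 : f 1 1 = 0 := by have := hf 1 1; linarith
  have h22 : f 2 2 = 0 := by have := hf 2 2; linarith
  have h33 : f 3 3 = 0 := by have := hf 3 3; linarith
  have h44 : f 4 4 = 0 := by have := hf 4 4; linarith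
  have h55 : f 5 5 = 0 := by have := hf 5 5; linarith
  refine ⟨![f 1 5, -f 0 5, 0, 0, 0, f 0 1], fun h => hne (by simpa using congrFun h 0), ?_⟩
  funext m
  fin_cases m <;> simp only [Matrix.mulVec, dotProduct, Fin.sum_univ_succ, Finset.univ_eq_empty, Finset.sum_empty]
  · simp [h00, h11, h22, h33, h44, h55, h10, h20, h21, h30, h31, h32, h40, h41, h42, h43, h50, h51, h52, h53, h54]
    try ring
  · simp [h00, h11, h22, h33, h44, h55, h10, h20, h21, h30, h31, h32, h40, h41, h42, h43, h50, h51, h52, h53, h54]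
    try ring
  · simp [h00, h11, h22, h33, h44, h55, h10, h20, h21, h30, h31, h32, h40, h41, h42, h43, h50, h51, h52, h53, h54]
    linear_combination (1) * p0125
  · simp [h00, h11, h22, h33, h44, h55, h10, h20, h21, h30, h31, h32, h40, h41, h42, h43, h50, h51, h52, h53, h54]
    linear_combination (1) * p0135
  · simp [h00, h11, h22, h33, h44, h55, h10, h20, h21, h30, h31, h32, h40, h41, h42, h43, h50, h51, h52, h53, h54]
    linear_combination (1) * p0145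
  · simp [h00, h11, h22, h33, h44, h55, h10, h20, h21, h30, h31, h32, h40, h41, h42, h43, h50, h51, h52, h53, h54]
    try ring

lemma ker_aux23 (f : Matrix (Fin 6) (Fin 6) ℝ) (hf : ∀ i j, f i j = - f j i) (hne : f 2 3 ≠ 0)
    (p0123 : f 0 1 * f 2 3 - f 0 2 * f 1 3 + f 0 3 * f 1 2 = 0)
    (p0124 : f 0 1 * f 2 4 - f 0 2 * f 1 4 + f 0 4 * f 1 2 = 0)
    (p0125 : f 0 1 * f 2 5 - f 0 2 * f 1 5 + f 0 5 * f 1 2 = 0)
    (p0134 : f 0 1 * f 3 4 - f 0 3 * f 1 4 + f 0 4 * f 1 3 = 0)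
    (p0135 : f 0 1 * f 3 5 - f 0 3 * f 1 5 + f 0 5 * f 1 3 = 0)
    (p0145 : f 0 1 * f 4 5 - f 0 4 * f 1 5 + f 0 5 * f 1 4 = 0)
    (p0234 : f 0 2 * f 3 4 - f 0 3 * f 2 4 + f 0 4 * f 2 3 = 0)
    (p0235 : f 0 2 * f 3 5 - f 0 3 * f 2 5 + f 0 5 * f 2 3 = 0)
    (p0245 : f 0 2 * f 4 5 - f 0 4 * f 2 5 + f 0 5 * f 2 4 = 0)
    (p0345 : f 0 3 * f 4 5 - f 0 4 * f 3 5 + f 0 5 * f 3 4 = 0)
    (p1234 : f 1 2 * f 3 4 - f 1 3 * f 2 4 + f 1 4 * f 2 3 = 0)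
    (p1235 : f 1 2 * f 3 5 - f 1 3 * f 2 5 + f 1 5 * f 2 3 = 0)
    (p1245 : f 1 2 * f 4 5 - f 1 4 * f 2 5 + f 1 5 * f 2 4 = 0)
    (p1345 : f 1 3 * f 4 5 - f 1 4 * f 3 5 + f 1 5 * f 3 4 = 0)
    (p2345 : f 2 3 * f 4 5 - f 2 4 * f 3 5 + f 2 5 * f 3 4 = 0) :
    ∃ ν : Fin 6 → ℝ, ν ≠ 0 ∧ f.mulVec ν = 0 := by
  have h10 : f 1 0 = - f 0 1 := hf 1 0
  have h20 : f 2 0 = - f 0 2 := hf 2 0
  have h21 : f 2 1 = - f 1 2 := hf 2 1
  have h30 : f 3 0 = - f 0 3 := hf 3 0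
  have h31 : f 3 1 = - f 1 3 := hf 3 1
  have h32 : f 3 2 = - f 2 3 := hf 3 2
  have h40 : f 4 0 = - f 0 4 := hf 4 0
  have h41 : f 4 1 = - f 1 4 := hf 4 1
  have h42 : f 4 2 = - f 2 4 := hf 4 2
  have h43 : f 4 3 = - f 3 4 := hf 4 3
  have h50 : f 5 0 = - f 0 5 := hf 5 0
  have h51 : f 5 1 = - f 1 5 := hf 5 1
  have h52 : f 5 2 = - f 2 5 := hf 5 2
  have h53 : f 5 3 = - f 3 5 := hf 5 3
  have h54 : f 5 4 = - f 4 5 := hf 5 4
  have h00 : f 0 0 = 0 := by have := hf 0 0; linarith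
  have h11 : f 1 1 = 0 := by have := hf 1 1; linarith
  have h22 : f 2 2 = 0 := by have := hf 2 2; linarith
  have h33 : f 3 3 = 0 := by have := hf 3 3; linarith
  have h44 : f 4 4 = 0 := by have := hf 4 4; linarith
  have h55 : f 5 5 = 0 := by have := hf 5 5; linarith
  refine ⟨![f 2 3, 0, -f 0 3, f 0 2, 0, 0], fun h => hne (by simpa using congrFun h 0), ?_⟩
  funext m
  fin_cases m <;> simp only [Matrix.mulVec, dotProduct, Fin.sum_univ_succ, Finset.univ_eq_empty, Finset.sum_empty]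
  · simp [h00, h11, h22, h33, h44, h55, h10, h20, h21, h30, h31, h32, h40, h41, h42, h43, h50, h51, h52, h53, h54]
    try ring
  · simp [h00, h11, h22, h33, h44, h55, h10, h20, h21, h30, h31, h32, h40, h41, h42, h43, h50, h51, h52, h53, h54]
    linear_combination (-1) * p0123
  · simp [h00, h11, h22, h33, h44, h55, h10, h20, h21, h30, h31, h32, h40, h41, h42, h43, h50, h51, h52, h53, h54]
    try ring
  · simp [h00, h11, h22, h33, h44, h55, h10, h20, h21, h30, h31, h32, h40, h41, h42, h43, h50, h51, h52, h53, h54]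
    try ring
  · simp [h00, h11, h22, h33, h44, h55, h10, h20, h21, h30, h31, h32, h40, h41, h42, h43, h50, h51, h52, h53, h54]
    linear_combination (-1) * p0234
  · simp [h00, h11, h22, h33, h44, h55, h10, h20, h21, h30, h31, h32, h40, h41, h42, h43, h50, h51, h52, h53, h54]
    linear_combination (-1) * p0235

lemma ker_aux24 (f : Matrix (Fin 6) (Fin 6) ℝ) (hf : ∀ i j, f i j = - f j i) (hne : f 2 4 ≠ 0)
    (p0123 : f 0 1 * f 2 3 - f 0 2 * f 1 3 + f 0 3 * f 1 2 = 0)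
    (p0124 : f 0 1 * f 2 4 - f 0 2 * f 1 4 + f 0 4 * f 1 2 = 0)
    (p0125 : f 0 1 * f 2 5 - f 0 2 * f 1 5 + f 0 5 * f 1 2 = 0)
    (p0134 : f 0 1 * f 3 4 - f 0 3 * f 1 4 + f 0 4 * f 1 3 = 0)
    (p0135 : f 0 1 * f 3 5 - f 0 3 * f 1 5 + f 0 5 * f 1 3 = 0)
    (p0145 : f 0 1 * f 4 5 - f 0 4 * f 1 5 + f 0 5 * f 1 4 = 0)
    (p0234 : f 0 2 * f 3 4 - f 0 3 * f 2 4 + f 0 4 * f 2 3 = 0)
    (p0235 : f 0 2 * f 3 5 - f 0 3 * f 2 5 + f 0 5 * f 2 3 = 0)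
    (p0245 : f 0 2 * f 4 5 - f 0 4 * f 2 5 + f 0 5 * f 2 4 = 0)
    (p0345 : f 0 3 * f 4 5 - f 0 4 * f 3 5 + f 0 5 * f 3 4 = 0)
    (p1234 : f 1 2 * f 3 4 - f 1 3 * f 2 4 + f 1 4 * f 2 3 = 0)
    (p1235 : f 1 2 * f 3 5 - f 1 3 * f 2 5 + f 1 5 * f 2 3 = 0)
    (p1245 : f 1 2 * f 4 5 - f 1 4 * f 2 5 + f 1 5 * f 2 4 = 0)
    (p1345 : f 1 3 * f 4 5 - f 1 4 * f 3 5 + f 1 5 * f 3 4 = 0)
    (p2345 : f 2 3 * f 4 5 - f 2 4 * f 3 5 + f 2 5 * f 3 4 = 0) :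
    ∃ ν : Fin 6 → ℝ, ν ≠ 0 ∧ f.mulVec ν = 0 := by
  have h10 : f 1 0 = - f 0 1 := hf 1 0
  have h20 : f 2 0 = - f 0 2 := hf 2 0
  have h21 : f 2 1 = - f 1 2 := hf 2 1
  have h30 : f 3 0 = - f 0 3 := hf 3 0
  have h31 : f 3 1 = - f 1 3 := hf 3 1
  have h32 : f 3 2 = - f 2 3 := hf 3 2
  have h40 : f 4 0 = - f 0 4 := hf 4 0
  have h41 : f 4 1 = - f 1 4 := hf 4 1
  have h42 : f 4 2 = - f 2 4 := hf 4 2
  have h43 : f 4 3 = - f 3 4 := hf 4 3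
  have h50 : f 5 0 = - f 0 5 := hf 5 0
  have h51 : f 5 1 = - f 1 5 := hf 5 1
  have h52 : f 5 2 = - f 2 5 := hf 5 2
  have h53 : f 5 3 = - f 3 5 := hf 5 3
  have h54 : f 5 4 = - f 4 5 := hf 5 4
  have h00 : f 0 0 = 0 := by have := hf 0 0; linarith
  have h11 : f 1 1 = 0 := by have := hf 1 1; linarith
  have h22 : f 2 2 = 0 := by have := hf 2 2; linarith
  have h33 : f 3 3 = 0 := by have := hf 3 3; linarith
  have h44 : f 4 4 = 0 := by have := hf 4 4; linarith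
  have h55 : f 5 5 = 0 := by have := hf 5 5; linarith
  refine ⟨![f 2 4, 0, -f 0 4, 0, f 0 2, 0], fun h => hne (by simpa using congrFun h 0), ?_⟩
  funext m
  fin_cases m <;> simp only [Matrix.mulVec, dotProduct, Fin.sum_univ_succ, Finset.univ_eq_empty, Finset.sum_empty]
  · simp [h00, h11, h22, h33, h44, h55, h10, h20, h21, h30, h31, h32, h40, h41, h42, h43, h50, h51, h52, h53, h54]
    try ring
  · simp [h00, h11, h22, h33, h44, h55, h10, h20, h21, h30, h31, h32, h40, h41, h42, h43, h50, h51, h52, h53, h54]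
    linear_combination (-1) * p0124
  · simp [h00, h11, h22, h33, h44, h55, h10, h20, h21, h30, h31, h32, h40, h41, h42, h43, h50, h51, h52, h53, h54]
    try ring
  · simp [h00, h11, h22, h33, h44, h55, h10, h20, h21, h30, h31, h32, h40, h41, h42, h43, h50, h51, h52, h53, h54]
    linear_combination (1) * p0234
  · simp [h00, h11, h22, h33, h44, h55, h10, h20, h21, h30, h31, h32, h40, h41, h42, h43, h50, h51, h52, h53, h54]
    try ring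
  · simp [h00, h11, h22, h33, h44, h55, h10, h20, h21, h30, h31, h32, h40, h41, h42, h43, h50, h51, h52, h53, h54]
    linear_combination (-1) * p0245

lemma ker_aux25 (f : Matrix (Fin 6) (Fin 6) ℝ) (hf : ∀ i j, f i j = - f j i) (hne : f 2 5 ≠ 0)
    (p0123 : f 0 1 * f 2 3 - f 0 2 * f 1 3 + f 0 3 * f 1 2 = 0)
    (p0124 : f 0 1 * f 2 4 - f 0 2 * f 1 4 + f 0 4 * f 1 2 = 0)
    (p0125 : f 0 1 * f 2 5 - f 0 2 * f 1 5 + f 0 5 * f 1 2 = 0)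
    (p0134 : f 0 1 * f 3 4 - f 0 3 * f 1 4 + f 0 4 * f 1 3 = 0)
    (p0135 : f 0 1 * f 3 5 - f 0 3 * f 1 5 + f 0 5 * f 1 3 = 0)
    (p0145 : f 0 1 * f 4 5 - f 0 4 * f 1 5 + f 0 5 * f 1 4 = 0)
    (p0234 : f 0 2 * f 3 4 - f 0 3 * f 2 4 + f 0 4 * f 2 3 = 0)
    (p0235 : f 0 2 * f 3 5 - f 0 3 * f 2 5 + f 0 5 * f 2 3 = 0)
    (p0245 : f 0 2 * f 4 5 - f 0 4 * f 2 5 + f 0 5 * f 2 4 = 0)
    (p0345 : f 0 3 * f 4 5 - f 0 4 * f 3 5 + f 0 5 * f 3 4 = 0)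
    (p1234 : f 1 2 * f 3 4 - f 1 3 * f 2 4 + f 1 4 * f 2 3 = 0)
    (p1235 : f 1 2 * f 3 5 - f 1 3 * f 2 5 + f 1 5 * f 2 3 = 0)
    (p1245 : f 1 2 * f 4 5 - f 1 4 * f 2 5 + f 1 5 * f 2 4 = 0)
    (p1345 : f 1 3 * f 4 5 - f 1 4 * f 3 5 + f 1 5 * f 3 4 = 0)
    (p2345 : f 2 3 * f 4 5 - f 2 4 * f 3 5 + f 2 5 * f 3 4 = 0) :
    ∃ ν : Fin 6 → ℝ, ν ≠ 0 ∧ f.mulVec ν = 0 := by
  have h10 : f 1 0 = - f 0 1 := hf 1 0
  have h20 : f 2 0 = - f 0 2 := hf 2 0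
  have h21 : f 2 1 = - f 1 2 := hf 2 1
  have h30 : f 3 0 = - f 0 3 := hf 3 0
  have h31 : f 3 1 = - f 1 3 := hf 3 1
  have h32 : f 3 2 = - f 2 3 := hf 3 2
  have h40 : f 4 0 = - f 0 4 := hf 4 0
  have h41 : f 4 1 = - f 1 4 := hf 4 1
  have h42 : f 4 2 = - f 2 4 := hf 4 2
  have h43 : f 4 3 = - f 3 4 := hf 4 3
  have h50 : f 5 0 = - f 0 5 := hf 5 0
  have h51 : f 5 1 = - f 1 5 := hf 5 1
  have h52 : f 5 2 = - f 2 5 := hf 5 2
  have h53 : f 5 3 = - f 3 5 := hf 5 3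
  have h54 : f 5 4 = - f 4 5 := hf 5 4
  have h00 : f 0 0 = 0 := by have := hf 0 0; linarith
  have h11 : f 1 1 = 0 := by have := hf 1 1; linarith
  have h22 : f 2 2 = 0 := by have := hf 2 2; linarith
  have h33 : f 3 3 = 0 := by have := hf 3 3; linarith
  have h44 : f 4 4 = 0 := by have := hf 4 4; linarith
  have h55 : f 5 5 = 0 := by have := hf 5 5; linarith
  refine ⟨![f 2 5, 0, -f 0 5, 0, 0, f 0 2], fun h => hne (by simpa using congrFun h 0), ?_⟩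
  funext m
  fin_cases m <;> simp only [Matrix.mulVec, dotProduct, Fin.sum_univ_succ, Finset.univ_eq_empty, Finset.sum_empty]
  · simp [h00, h11, h22, h33, h44, h55, h10, h20, h21, h30, h31, h32, h40, h41, h42, h43, h50, h51, h52, h53, h54]
    try ring
  · simp [h00, h11, h22, h33, h44, h55, h10, h20, h21, h30, h31, h32, h40, h41, h42, h43, h50, h51, h52, h53, h54]
    linear_combination (-1) * p0125
  · simp [h00, h11, h22, h33, h44, h55, h10, h20, h21, h30, h31, h32, h40, h41, h42, h43, h50, h51, h52, h53, h54]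
    try ring
  · simp [h00, h11, h22, h33, h44, h55, h10, h20, h21, h30, h31, h32, h40, h41, h42, h43, h50, h51, h52, h53, h54]
    linear_combination (1) * p0235
  · simp [h00, h11, h22, h33, h44, h55, h10, h20, h21, h30, h31, h32, h40, h41, h42, h43, h50, h51, h52, h53, h54]
    linear_combination (1) * p0245
  · simp [h00, h11, h22, h33, h44, h55, h10, h20, h21, h30, h31, h32, h40, h41, h42, h43, h50, h51, h52, h53, h54]
    try ring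

lemma ker_aux34 (f : Matrix (Fin 6) (Fin 6) ℝ) (hf : ∀ i j, f i j = - f j i) (hne : f 3 4 ≠ 0)
    (p0123 : f 0 1 * f 2 3 - f 0 2 * f 1 3 + f 0 3 * f 1 2 = 0)
    (p0124 : f 0 1 * f 2 4 - f 0 2 * f 1 4 + f 0 4 * f 1 2 = 0)
    (p0125 : f 0 1 * f 2 5 - f 0 2 * f 1 5 + f 0 5 * f 1 2 = 0)
    (p0134 : f 0 1 * f 3 4 - f 0 3 * f 1 4 + f 0 4 * f 1 3 = 0)
    (p0135 : f 0 1 * f 3 5 - f 0 3 * f 1 5 + f 0 5 * f 1 3 = 0)
    (p0145 : f 0 1 * f 4 5 - f 0 4 * f 1 5 + f 0 5 * f 1 4 = 0)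
    (p0234 : f 0 2 * f 3 4 - f 0 3 * f 2 4 + f 0 4 * f 2 3 = 0)
    (p0235 : f 0 2 * f 3 5 - f 0 3 * f 2 5 + f 0 5 * f 2 3 = 0)
    (p0245 : f 0 2 * f 4 5 - f 0 4 * f 2 5 + f 0 5 * f 2 4 = 0)
    (p0345 : f 0 3 * f 4 5 - f 0 4 * f 3 5 + f 0 5 * f 3 4 = 0)
    (p1234 : f 1 2 * f 3 4 - f 1 3 * f 2 4 + f 1 4 * f 2 3 = 0)
    (p1235 : f 1 2 * f 3 5 - f 1 3 * f 2 5 + f 1 5 * f 2 3 = 0)
    (p1245 : f 1 2 * f 4 5 - f 1 4 * f 2 5 + f 1 5 * f 2 4 = 0)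
    (p1345 : f 1 3 * f 4 5 - f 1 4 * f 3 5 + f 1 5 * f 3 4 = 0)
    (p2345 : f 2 3 * f 4 5 - f 2 4 * f 3 5 + f 2 5 * f 3 4 = 0) :
    ∃ ν : Fin 6 → ℝ, ν ≠ 0 ∧ f.mulVec ν = 0 := by
  have h10 : f 1 0 = - f 0 1 := hf 1 0
  have h20 : f 2 0 = - f 0 2 := hf 2 0
  have h21 : f 2 1 = - f 1 2 := hf 2 1
  have h30 : f 3 0 = - f 0 3 := hf 3 0
  have h31 : f 3 1 = - f 1 3 := hf 3 1
  have h32 : f 3 2 = - f 2 3 := hf 3 2
  have h40 : f 4 0 = - f 0 4 := hf 4 0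
  have h41 : f 4 1 = - f 1 4 := hf 4 1
  have h42 : f 4 2 = - f 2 4 := hf 4 2
  have h43 : f 4 3 = - f 3 4 := hf 4 3
  have h50 : f 5 0 = - f 0 5 := hf 5 0
  have h51 : f 5 1 = - f 1 5 := hf 5 1
  have h52 : f 5 2 = - f 2 5 := hf 5 2
  have h53 : f 5 3 = - f 3 5 := hf 5 3
  have h54 : f 5 4 = - f 4 5 := hf 5 4
  have h00 : f 0 0 = 0 := by have := hf 0 0; linarith
  have h11 : f 1 1 = 0 := by have := hf 1 1; linarith
  have h22 : f 2 2 = 0 := by have := hf 2 2; linarith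
  have h33 : f 3 3 = 0 := by have := hf 3 3; linarith
  have h44 : f 4 4 = 0 := by have := hf 4 4; linarith
  have h55 : f 5 5 = 0 := by have := hf 5 5; linarith
  refine ⟨![f 3 4, 0, 0, -f 0 4, f 0 3, 0], fun h => hne (by simpa using congrFun h 0), ?_⟩
  funext m
  fin_cases m <;> simp only [Matrix.mulVec, dotProduct, Fin.sum_univ_succ, Finset.univ_eq_empty, Finset.sum_empty]
  · simp [h00, h11, h22, h33, h44, h55, h10, h20, h21, h30, h31, h32, h40, h41, h42, h43, h50, h51, h52, h53, h54]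
    try ring
  · simp [h00, h11, h22, h33, h44, h55, h10, h20, h21, h30, h31, h32, h40, h41, h42, h43, h50, h51, h52, h53, h54]
    linear_combination (-1) * p0134
  · simp [h00, h11, h22, h33, h44, h55, h10, h20, h21, h30, h31, h32, h40, h41, h42, h43, h50, h51, h52, h53, h54]
    linear_combination (-1) * p0234
  · simp [h00, h11, h22, h33, h44, h55, h10, h20, h21, h30, h31, h32, h40, h41, h42, h43, h50, h51, h52, h53, h54]
    try ring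
  · simp [h00, h11, h22, h33, h44, h55, h10, h20, h21, h30, h31, h32, h40, h41, h42, h43, h50, h51, h52, h53, h54]
    try ring
  · simp [h00, h11, h22, h33, h44, h55, h10, h20, h21, h30, h31, h32, h40, h41, h42, h43, h50, h51, h52, h53, h54]
    linear_combination (-1) * p0345

lemma ker_aux35 (f : Matrix (Fin 6) (Fin 6) ℝ) (hf : ∀ i j, f i j = - f j i) (hne : f 3 5 ≠ 0)
    (p0123 : f 0 1 * f 2 3 - f 0 2 * f 1 3 + f 0 3 * f 1 2 = 0)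
    (p0124 : f 0 1 * f 2 4 - f 0 2 * f 1 4 + f 0 4 * f 1 2 = 0)
    (p0125 : f 0 1 * f 2 5 - f 0 2 * f 1 5 + f 0 5 * f 1 2 = 0)
    (p0134 : f 0 1 * f 3 4 - f 0 3 * f 1 4 + f 0 4 * f 1 3 = 0)
    (p0135 : f 0 1 * f 3 5 - f 0 3 * f 1 5 + f 0 5 * f 1 3 = 0)
    (p0145 : f 0 1 * f 4 5 - f 0 4 * f 1 5 + f 0 5 * f 1 4 = 0)
    (p0234 : f 0 2 * f 3 4 - f 0 3 * f 2 4 + f 0 4 * f 2 3 = 0)
    (p0235 : f 0 2 * f 3 5 - f 0 3 * f 2 5 + f 0 5 * f 2 3 = 0)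
    (p0245 : f 0 2 * f 4 5 - f 0 4 * f 2 5 + f 0 5 * f 2 4 = 0)
    (p0345 : f 0 3 * f 4 5 - f 0 4 * f 3 5 + f 0 5 * f 3 4 = 0)
    (p1234 : f 1 2 * f 3 4 - f 1 3 * f 2 4 + f 1 4 * f 2 3 = 0)
    (p1235 : f 1 2 * f 3 5 - f 1 3 * f 2 5 + f 1 5 * f 2 3 = 0)
    (p1245 : f 1 2 * f 4 5 - f 1 4 * f 2 5 + f 1 5 * f 2 4 = 0)
    (p1345 : f 1 3 * f 4 5 - f 1 4 * f 3 5 + f 1 5 * f 3 4 = 0)
    (p2345 : f 2 3 * f 4 5 - f 2 4 * f 3 5 + f 2 5 * f 3 4 = 0) :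
    ∃ ν : Fin 6 → ℝ, ν ≠ 0 ∧ f.mulVec ν = 0 := by
  have h10 : f 1 0 = - f 0 1 := hf 1 0
  have h20 : f 2 0 = - f 0 2 := hf 2 0
  have h21 : f 2 1 = - f 1 2 := hf 2 1
  have h30 : f 3 0 = - f 0 3 := hf 3 0
  have h31 : f 3 1 = - f 1 3 := hf 3 1
  have h32 : f 3 2 = - f 2 3 := hf 3 2
  have h40 : f 4 0 = - f 0 4 := hf 4 0
  have h41 : f 4 1 = - f 1 4 := hf 4 1
  have h42 : f 4 2 = - f 2 4 := hf 4 2
  have h43 : f 4 3 = - f 3 4 := hf 4 3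
  have h50 : f 5 0 = - f 0 5 := hf 5 0
  have h51 : f 5 1 = - f 1 5 := hf 5 1
  have h52 : f 5 2 = - f 2 5 := hf 5 2
  have h53 : f 5 3 = - f 3 5 := hf 5 3
  have h54 : f 5 4 = - f 4 5 := hf 5 4
  have h00 : f 0 0 = 0 := by have := hf 0 0; linarith
  have h11 : f 1 1 = 0 := by have := hf 1 1; linarith
  have h22 : f 2 2 = 0 := by have := hf 2 2; linarith
  have h33 : f 3 3 = 0 := by have := hf 3 3; linarith
  have h44 : f 4 4 = 0 := by have := hf 4 4; linarith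
  have h55 : f 5 5 = 0 := by have := hf 5 5; linarith
  refine ⟨![f 3 5, 0, 0, -f 0 5, 0, f 0 3], fun h => hne (by simpa using congrFun h 0), ?_⟩
  funext m
  fin_cases m <;> simp only [Matrix.mulVec, dotProduct, Fin.sum_univ_succ, Finset.univ_eq_empty, Finset.sum_empty]
  · simp [h00, h11, h22, h33, h44, h55, h10, h20, h21, h30, h31, h32, h40, h41, h42, h43, h50, h51, h52, h53, h54]
    try ring
  · simp [h00, h11, h22, h33, h44, h55, h10, h20, h21, h30, h31, h32, h40, h41, h42, h43, h50, h51, h52, h53, h54]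
    linear_combination (-1) * p0135
  · simp [h00, h11, h22, h33, h44, h55, h10, h20, h21, h30, h31, h32, h40, h41, h42, h43, h50, h51, h52, h53, h54]
    linear_combination (-1) * p0235
  · simp [h00, h11, h22, h33, h44, h55, h10, h20, h21, h30, h31, h32, h40, h41, h42, h43, h50, h51, h52, h53, h54]
    try ring
  · simp [h00, h11, h22, h33, h44, h55, h10, h20, h21, h30, h31, h32, h40, h41, h42, h43, h50, h51, h52, h53, h54]
    linear_combination (1) * p0345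
  · simp [h00, h11, h22, h33, h44, h55, h10, h20, h21, h30, h31, h32, h40, h41, h42, h43, h50, h51, h52, h53, h54]
    try ring

lemma ker_aux45 (f : Matrix (Fin 6) (Fin 6) ℝ) (hf : ∀ i j, f i j = - f j i) (hne : f 4 5 ≠ 0)
    (p0123 : f 0 1 * f 2 3 - f 0 2 * f 1 3 + f 0 3 * f 1 2 = 0)
    (p0124 : f 0 1 * f 2 4 - f 0 2 * f 1 4 + f 0 4 * f 1 2 = 0)
    (p0125 : f 0 1 * f 2 5 - f 0 2 * f 1 5 + f 0 5 * f 1 2 = 0)
    (p0134 : f 0 1 * f 3 4 - f 0 3 * f 1 4 + f 0 4 * f 1 3 = 0)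
    (p0135 : f 0 1 * f 3 5 - f 0 3 * f 1 5 + f 0 5 * f 1 3 = 0)
    (p0145 : f 0 1 * f 4 5 - f 0 4 * f 1 5 + f 0 5 * f 1 4 = 0)
    (p0234 : f 0 2 * f 3 4 - f 0 3 * f 2 4 + f 0 4 * f 2 3 = 0)
    (p0235 : f 0 2 * f 3 5 - f 0 3 * f 2 5 + f 0 5 * f 2 3 = 0)
    (p0245 : f 0 2 * f 4 5 - f 0 4 * f 2 5 + f 0 5 * f 2 4 = 0)
    (p0345 : f 0 3 * f 4 5 - f 0 4 * f 3 5 + f 0 5 * f 3 4 = 0)
    (p1234 : f 1 2 * f 3 4 - f 1 3 * f 2 4 + f 1 4 * f 2 3 = 0)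
    (p1235 : f 1 2 * f 3 5 - f 1 3 * f 2 5 + f 1 5 * f 2 3 = 0)
    (p1245 : f 1 2 * f 4 5 - f 1 4 * f 2 5 + f 1 5 * f 2 4 = 0)
    (p1345 : f 1 3 * f 4 5 - f 1 4 * f 3 5 + f 1 5 * f 3 4 = 0)
    (p2345 : f 2 3 * f 4 5 - f 2 4 * f 3 5 + f 2 5 * f 3 4 = 0) :
    ∃ ν : Fin 6 → ℝ, ν ≠ 0 ∧ f.mulVec ν = 0 := by
  have h10 : f 1 0 = - f 0 1 := hf 1 0
  have h20 : f 2 0 = - f 0 2 := hf 2 0
  have h21 : f 2 1 = - f 1 2 := hf 2 1
  have h30 : f 3 0 = - f 0 3 := hf 3 0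
  have h31 : f 3 1 = - f 1 3 := hf 3 1
  have h32 : f 3 2 = - f 2 3 := hf 3 2
  have h40 : f 4 0 = - f 0 4 := hf 4 0
  have h41 : f 4 1 = - f 1 4 := hf 4 1
  have h42 : f 4 2 = - f 2 4 := hf 4 2
  have h43 : f 4 3 = - f 3 4 := hf 4 3
  have h50 : f 5 0 = - f 0 5 := hf 5 0
  have h51 : f 5 1 = - f 1 5 := hf 5 1
  have h52 : f 5 2 = - f 2 5 := hf 5 2
  have h53 : f 5 3 = - f 3 5 := hf 5 3
  have h54 : f 5 4 = - f 4 5 := hf 5 4
  have h00 : f 0 0 = 0 := by have := hf 0 0; linarith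
  have h11 : f 1 1 = 0 := by have := hf 1 1; linarith
  have h22 : f 2 2 = 0 := by have := hf 2 2; linarith
  have h33 : f 3 3 = 0 := by have := hf 3 3; linarith
  have h44 : f 4 4 = 0 := by have := hf 4 4; linarith
  have h55 : f 5 5 = 0 := by have := hf 5 5; linarith
  refine ⟨![f 4 5, 0, 0, 0, -f 0 5, f 0 4], fun h => hne (by simpa using congrFun h 0), ?_⟩
  funext m
  fin_cases m <;> simp only [Matrix.mulVec, dotProduct, Fin.sum_univ_succ, Finset.univ_eq_empty, Finset.sum_empty]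
  · simp [h00, h11, h22, h33, h44, h55, h10, h20, h21, h30, h31, h32, h40, h41, h42, h43, h50, h51, h52, h53, h54]
    try ring
  · simp [h00, h11, h22, h33, h44, h55, h10, h20, h21, h30, h31, h32, h40, h41, h42, h43, h50, h51, h52, h53, h54]
    linear_combination (-1) * p0145
  · simp [h00, h11, h22, h33, h44, h55, h10, h20, h21, h30, h31, h32, h40, h41, h42, h43, h50, h51, h52, h53, h54]
    linear_combination (-1) * p0245
  · simp [h00, h11, h22, h33, h44, h55, h10, h20, h21, h30, h31, h32, h40, h41, h42, h43, h50, h51, h52, h53, h54]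
    linear_combination (-1) * p0345
  · simp [h00, h11, h22, h33, h44, h55, h10, h20, h21, h30, h31, h32, h40, h41, h42, h43, h50, h51, h52, h53, h54]
    try ring
  · simp [h00, h11, h22, h33, h44, h55, h10, h20, h21, h30, h31, h32, h40, h41, h42, h43, h50, h51, h52, h53, h54]
    try ring

/-- a skew `6 × 6` matrix with vanishing Pfaffian is singular -/
lemma exists_ker (f : Matrix (Fin 6) (Fin 6) ℝ) (hf : ∀ i j, f i j = - f j i) (hp : pf f = 0) :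
    ∃ ν : Fin 6 → ℝ, ν ≠ 0 ∧ f.mulVec ν = 0 := by
  by_cases hs : ∃ k j, shp f k j ≠ 0
  · obtain ⟨k, j, hkj⟩ := hs
    refine ⟨fun k => shp f k j, fun h => hkj (congrFun h k), ?_⟩
    funext i
    have := mul_shp f hf i j
    rw [hp, neg_zero, ite_self] at this
    simpa [Matrix.mulVec, dotProduct] using this
  push Not at hs
  have p0123 : f 0 1 * f 2 3 - f 0 2 * f 1 3 + f 0 3 * f 1 2 = 0 := by
    have := hs 4 5
    simpa [shp, pf4] using this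
  have p0124 : f 0 1 * f 2 4 - f 0 2 * f 1 4 + f 0 4 * f 1 2 = 0 := by
    have := hs 5 3
    simpa [shp, pf4] using this
  have p0125 : f 0 1 * f 2 5 - f 0 2 * f 1 5 + f 0 5 * f 1 2 = 0 := by
    have := hs 3 4
    simpa [shp, pf4] using this
  have p0134 : f 0 1 * f 3 4 - f 0 3 * f 1 4 + f 0 4 * f 1 3 = 0 := by
    have := hs 2 5
    simpa [shp, pf4] using this
  have p0135 : f 0 1 * f 3 5 - f 0 3 * f 1 5 + f 0 5 * f 1 3 = 0 := by
    have := hs 4 2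
    simpa [shp, pf4] using this
  have p0145 : f 0 1 * f 4 5 - f 0 4 * f 1 5 + f 0 5 * f 1 4 = 0 := by
    have := hs 2 3
    simpa [shp, pf4] using this
  have p0234 : f 0 2 * f 3 4 - f 0 3 * f 2 4 + f 0 4 * f 2 3 = 0 := by
    have := hs 5 1
    simpa [shp, pf4] using this
  have p0235 : f 0 2 * f 3 5 - f 0 3 * f 2 5 + f 0 5 * f 2 3 = 0 := by
    have := hs 1 4
    simpa [shp, pf4] using this
  have p0245 : f 0 2 * f 4 5 - f 0 4 * f 2 5 + f 0 5 * f 2 4 = 0 := by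
    have := hs 3 1
    simpa [shp, pf4] using this
  have p0345 : f 0 3 * f 4 5 - f 0 4 * f 3 5 + f 0 5 * f 3 4 = 0 := by
    have := hs 1 2
    simpa [shp, pf4] using this
  have p1234 : f 1 2 * f 3 4 - f 1 3 * f 2 4 + f 1 4 * f 2 3 = 0 := by
    have := hs 0 5
    simpa [shp, pf4] using this
  have p1235 : f 1 2 * f 3 5 - f 1 3 * f 2 5 + f 1 5 * f 2 3 = 0 := by
    have := hs 4 0
    simpa [shp, pf4] using this
  have p1245 : f 1 2 * f 4 5 - f 1 4 * f 2 5 + f 1 5 * f 2 4 = 0 := by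
    have := hs 0 3
    simpa [shp, pf4] using this
  have p1345 : f 1 3 * f 4 5 - f 1 4 * f 3 5 + f 1 5 * f 3 4 = 0 := by
    have := hs 2 0
    simpa [shp, pf4] using this
  have p2345 : f 2 3 * f 4 5 - f 2 4 * f 3 5 + f 2 5 * f 3 4 = 0 := by
    have := hs 0 1
    simpa [shp, pf4] using this
  by_cases q01 : f 0 1 = 0
  swap
  · exact ker_aux01 f hf q01 p0123 p0124 p0125 p0134 p0135 p0145 p0234 p0235 p0245 p0345 p1234 p1235 p1245 p1345 p2345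
  by_cases q02 : f 0 2 = 0
  swap
  · exact ker_aux02 f hf q02 p0123 p0124 p0125 p0134 p0135 p0145 p0234 p0235 p0245 p0345 p1234 p1235 p1245 p1345 p2345
  by_cases q03 : f 0 3 = 0
  swap
  · exact ker_aux03 f hf q03 p0123 p0124 p0125 p0134 p0135 p0145 p0234 p0235 p0245 p0345 p1234 p1235 p1245 p1345 p2345
  by_cases q04 : f 0 4 = 0
  swap
  · exact ker_aux04 f hf q04 p0123 p0124 p0125 p0134 p0135 p0145 p0234 p0235 p0245 p0345 p1234 p1235 p1245 p1345 p2345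
  by_cases q05 : f 0 5 = 0
  swap
  · exact ker_aux05 f hf q05 p0123 p0124 p0125 p0134 p0135 p0145 p0234 p0235 p0245 p0345 p1234 p1235 p1245 p1345 p2345
  by_cases q12 : f 1 2 = 0
  swap
  · exact ker_aux12 f hf q12 p0123 p0124 p0125 p0134 p0135 p0145 p0234 p0235 p0245 p0345 p1234 p1235 p1245 p1345 p2345
  by_cases q13 : f 1 3 = 0
  swap
  · exact ker_aux13 f hf q13 p0123 p0124 p0125 p0134 p0135 p0145 p0234 p0235 p0245 p0345 p1234 p1235 p1245 p1345 p2345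
  by_cases q14 : f 1 4 = 0
  swap
  · exact ker_aux14 f hf q14 p0123 p0124 p0125 p0134 p0135 p0145 p0234 p0235 p0245 p0345 p1234 p1235 p1245 p1345 p2345
  by_cases q15 : f 1 5 = 0
  swap
  · exact ker_aux15 f hf q15 p0123 p0124 p0125 p0134 p0135 p0145 p0234 p0235 p0245 p0345 p1234 p1235 p1245 p1345 p2345
  by_cases q23 : f 2 3 = 0
  swap
  · exact ker_aux23 f hf q23 p0123 p0124 p0125 p0134 p0135 p0145 p0234 p0235 p0245 p0345 p1234 p1235 p1245 p1345 p2345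
  by_cases q24 : f 2 4 = 0
  swap
  · exact ker_aux24 f hf q24 p0123 p0124 p0125 p0134 p0135 p0145 p0234 p0235 p0245 p0345 p1234 p1235 p1245 p1345 p2345
  by_cases q25 : f 2 5 = 0
  swap
  · exact ker_aux25 f hf q25 p0123 p0124 p0125 p0134 p0135 p0145 p0234 p0235 p0245 p0345 p1234 p1235 p1245 p1345 p2345
  by_cases q34 : f 3 4 = 0
  swap
  · exact ker_aux34 f hf q34 p0123 p0124 p0125 p0134 p0135 p0145 p0234 p0235 p0245 p0345 p1234 p1235 p1245 p1345 p2345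
  by_cases q35 : f 3 5 = 0
  swap
  · exact ker_aux35 f hf q35 p0123 p0124 p0125 p0134 p0135 p0145 p0234 p0235 p0245 p0345 p1234 p1235 p1245 p1345 p2345
  by_cases q45 : f 4 5 = 0
  swap
  · exact ker_aux45 f hf q45 p0123 p0124 p0125 p0134 p0135 p0145 p0234 p0235 p0245 p0345 p1234 p1235 p1245 p1345 p2345
  have h10 : f 1 0 = - f 0 1 := hf 1 0
  have h20 : f 2 0 = - f 0 2 := hf 2 0
  have h21 : f 2 1 = - f 1 2 := hf 2 1
  have h30 : f 3 0 = - f 0 3 := hf 3 0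
  have h31 : f 3 1 = - f 1 3 := hf 3 1
  have h32 : f 3 2 = - f 2 3 := hf 3 2
  have h40 : f 4 0 = - f 0 4 := hf 4 0
  have h41 : f 4 1 = - f 1 4 := hf 4 1
  have h42 : f 4 2 = - f 2 4 := hf 4 2
  have h43 : f 4 3 = - f 3 4 := hf 4 3
  have h50 : f 5 0 = - f 0 5 := hf 5 0
  have h51 : f 5 1 = - f 1 5 := hf 5 1
  have h52 : f 5 2 = - f 2 5 := hf 5 2
  have h53 : f 5 3 = - f 3 5 := hf 5 3
  have h54 : f 5 4 = - f 4 5 := hf 5 4
  have h00 : f 0 0 = 0 := by have := hf 0 0; linarith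
  have h11 : f 1 1 = 0 := by have := hf 1 1; linarith
  have h22 : f 2 2 = 0 := by have := hf 2 2; linarith
  have h33 : f 3 3 = 0 := by have := hf 3 3; linarith
  have h44 : f 4 4 = 0 := by have := hf 4 4; linarith
  have h55 : f 5 5 = 0 := by have := hf 5 5; linarith
  refine ⟨Pi.single 0 1, by simp [Function.ne_iff], ?_⟩
  funext m
  fin_cases m <;> simp [h00, h11, h22, h33, h44, h55, h10, h20, h21, h30, h31, h32, h40, h41, h42, h43, h50, h51, h52, h53, h54, q01, q02, q03, q04, q05, q12, q13, q14, q15, q23, q24, q25, q34, q35, q45]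

end HopfSix
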